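import Pool.Agent.H93.BT.Chk

set_option autoImplicit false

/-!
# Refutations with finite tables, and their polynomial time test
-/

namespace Pool.Agent.H93.BB

open Pool.Agent.H88.RO Pool.Agent.H88.RO.Tr Pool.Agent.H65.TS

/-! ### finite tables -/

theorem length_out_le (O : Orc) (c v : Tr) (K : ℕ) :
    (dec (snd (snd (U O c v K)))).length ≤ K := by
  rw [length_dec]
  rcases U_cases (O := O) c v K with h1 | ⟨w, h1⟩
  · rw [h1]; simp [len]
  · rw [h1, snd_node]
    have h2 := size_of_U h1
    have h3 := len_le_size (snd w)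
    have h4 := size_snd_le w
    omega

theorem AllC_length_le {T : TFNP2 zero} {A : Orc} {r x : Tr} {K : ℕ} {h : List (List Bool)}
    (hh : AllC (Ans T A r x K) h) : ∀ y ∈ h, y.length ≤ T.p.eval K := by
  induction h with
  | nil => intro y hy; simp at hy
  | cons z h ih =>
    obtain ⟨⟨_, h1⟩, h2⟩ := hh
    intro y hy
    rcases List.mem_cons.mp hy with rfl | hy
    · exact h1.1.trans (poly_mono _ (length_out_le _ _ _ _))
    · exact ih h2 y hy

theorem AllC_local (T : TFNP2 zero) (A : Orc) (r x : Tr) (K : ℕ) (h : List (List Bool)) :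
    ∃ Q : Finset (List Bool), Q.card ≤ h.length * (K + T.clk.eval K * K) ∧
      (∀ q ∈ Q, q.length ≤ K) ∧
      ∀ A' : Orc, (∀ q ∈ Q, A' q = A q) → AllC (Ans T A r x K) h → AllC (Ans T A' r x K) h := by
  classical
  induction h with
  | nil => exact ⟨∅, by simp, by simp, fun _ _ _ => trivial⟩
  | cons y h ih =>
    obtain ⟨Q, q1, q2, q3⟩ := ih
    obtain ⟨Qf, f1, f2, f3⟩ := U_local_join A (fst r) (node x (encL h)) K
    set s := dec (snd (snd (U (join A zero) (fst r) (node x (encL h)) K))) with hs
    have hc : T.clk.eval s.length ≤ T.clk.eval K := poly_mono _ (length_out_le _ _ _ _)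
    obtain ⟨QT, t1, t2, t3⟩ := T.isSol_local (inner A (snd r) (node x (encL h)) K) s y
    choose Qw w1 w2 w3 using fun w : List Bool =>
      U_local_join A (snd r) (node (node x (encL h)) (enc w)) K
    refine ⟨Q ∪ (Qf ∪ QT.biUnion Qw), ?_, ?_, fun A' hA' => ?_⟩
    · have a1 := Finset.card_union_le Q (Qf ∪ QT.biUnion Qw)
      have a3 := Finset.card_union_le Qf (QT.biUnion Qw)
      have a4 : (QT.biUnion Qw).card ≤ T.clk.eval K * K :=
        (Finset.card_biUnion_le_card_mul _ _ K (fun w _ => w1 w)).trans
          (Nat.mul_le_mul_right _ (t1.trans hc))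
      have a5 : (y :: h).length * (K + T.clk.eval K * K) =
          h.length * (K + T.clk.eval K * K) + (K + T.clk.eval K * K) := by
        rw [List.length_cons]; ring
      omega
    · intro q hq
      simp only [Finset.mem_union, Finset.mem_biUnion] at hq
      rcases hq with hq | (hq | ⟨w, _, hq⟩)
      · exact q2 q hq
      · exact f2 q hq
      · exact w2 w q hq
    · rintro ⟨⟨h1, h2⟩, h3⟩
      have hf := f3 A' (fun q hq => hA' q (by simp [hq]))
      have hin : ∀ w ∈ QT, inner A' (snd r) (node x (encL h)) K w =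
          inner A (snd r) (node x (encL h)) K w := by
        intro w hw
        unfold inner
        rw [w3 w A' (fun q hq => hA' q (by
          simp only [Finset.mem_union, Finset.mem_biUnion]
          exact Or.inr (Or.inr ⟨w, hw, hq⟩)))]
      refine ⟨⟨by rw [hf]; exact h1, ?_⟩, q3 A' (fun q hq => hA' q (by simp [hq])) h3⟩
      rw [hf, ← hs]
      exact (t3 _ hin).mpr h2

/-- a refutation relative to any oracle gives one relative to a small finite table -/
theorem exists_tableT (T : TFNP2 zero) : ∃ PB : Polynomial ℕ, ∀ (A : Orc) (r x : Tr) (K : ℕ)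
    (e xS : Tr) (K2 : ℕ) (h : List (List Bool)), RefT T A r x K e xS K2 h →
      ∃ t : Tr, size t ≤ PB.eval (K + K2) ∧ size (encL h.reverse) ≤ PB.eval (K + K2) ∧
        RefT T (trie t) r x K e xS K2 h := by
  classical
  refine ⟨1 + ((Polynomial.X + 1) * (Polynomial.X + T.clk * Polynomial.X) + Polynomial.X +
    Polynomial.X) * (6 * (Polynomial.X + 1)) + ((Polynomial.X + 1) * (4 * T.p + 2) + 1), ?_⟩
  intro A r x K e xS K2 h hR
  have hev : (1 + ((Polynomial.X + 1) * (Polynomial.X + T.clk * Polynomial.X) + Polynomial.X +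
      Polynomial.X) * (6 * (Polynomial.X + 1)) +
        ((Polynomial.X + 1) * (4 * T.p + 2) + 1)).eval (K + K2) =
      1 + (((K + K2) + 1) * ((K + K2) + T.clk.eval (K + K2) * (K + K2)) + (K + K2) + (K + K2)) *
        (6 * ((K + K2) + 1)) + (((K + K2) + 1) * (4 * T.p.eval (K + K2) + 2) + 1) := by
    simp
  rw [hev]
  obtain ⟨h1, h2, h3⟩ := hR
  obtain ⟨Qh, q1, q2, q3⟩ := AllC_local T A r x K h
  obtain ⟨Qf, f1, f2, f3⟩ := U_local_join A (fst r) (node x (encL h)) K
  obtain ⟨Qe, e1, e2, e3⟩ := U_local_join A e
    (node xS (enc (dec (snd (snd (U (join A zero) (fst r) (node x (encL h)) K)))))) K2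
  obtain ⟨t, ht1, ht2⟩ := exists_trie A (Qh ∪ Qf ∪ Qe) (K + K2) (by
    intro q hq
    simp only [Finset.mem_union] at hq
    rcases hq with (hq | hq) | hq
    · have := q2 q hq; omega
    · have := f2 q hq; omega
    · have := e2 q hq; omega)
  have hcard : (Qh ∪ Qf ∪ Qe).card ≤
      ((K + K2) + 1) * ((K + K2) + T.clk.eval (K + K2) * (K + K2)) + (K + K2) + (K + K2) := by
    have a1 := Finset.card_union_le (Qh ∪ Qf) Qe
    have a2 := Finset.card_union_le Qh Qf
    have hc : T.clk.eval K ≤ T.clk.eval (K + K2) := poly_mono _ (by omega)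
    have a3 : h.length * (K + T.clk.eval K * K) ≤
        ((K + K2) + 1) * ((K + K2) + T.clk.eval (K + K2) * (K + K2)) :=
      Nat.mul_le_mul (by omega) (Nat.add_le_add (by omega) (Nat.mul_le_mul hc (by omega)))
    omega
  have hsize : size t ≤ 1 + (((K + K2) + 1) * ((K + K2) + T.clk.eval (K + K2) * (K + K2)) +
      (K + K2) + (K + K2)) * (6 * ((K + K2) + 1)) := by
    refine ht1.trans ?_
    have := Nat.mul_le_mul_right (6 * ((K + K2) + 1)) hcard
    omega
  have hlen : size (encL h.reverse) ≤ ((K + K2) + 1) * (4 * T.p.eval (K + K2) + 2) + 1 := by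
    have a1 := size_encL_le h.reverse (T.p.eval (K + K2)) (fun y hy =>
      (AllC_length_le h1 y (List.mem_reverse.mp hy)).trans (poly_mono _ (by omega)))
    rw [List.length_reverse] at a1
    have a2 : h.length * (4 * T.p.eval (K + K2) + 2) ≤
        ((K + K2) + 1) * (4 * T.p.eval (K + K2) + 2) := Nat.mul_le_mul_right _ (by omega)
    omega
  have hq := q3 (trie t) (fun q hq => ht2 q (by simp [hq])) h1
  have hf := f3 (trie t) (fun q hq => ht2 q (by simp [hq]))
  have he := e3 (trie t) (fun q hq => ht2 q (by simp [hq]))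
  refine ⟨t, by omega, by omega, hq, h2, ?_⟩
  rcases h3 with h3 | h3 | ⟨h3, h4⟩
  · exact Or.inl h3
  · exact Or.inr (Or.inl (by rw [hf]; exact h3))
  · refine Or.inr (Or.inr ⟨by rw [hf]; exact h3, ?_⟩)
    rw [hf]
    unfold Acc at h4 ⊢
    rw [he]
    exact h4

/-! ### the test -/

/-- the test for answers; inputs `node (node t (node r (node x K))) (node history y)` -/
noncomputable def ansT (T : TFNP2 zero) (v : Tr) : Tr :=
  cs (fst (snd (U (join (trie (fst (fst v))) zero) (fst (fst (snd (fst v))))
      (node (fst (snd (snd (fst v)))) (fst (snd v))) (len (snd (snd (snd (fst v))))))))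
    (cs (dropU (pT T.p (norm (snd (snd (U (join (trie (fst (fst v))) zero)
        (fst (fst (snd (fst v)))) (node (fst (snd (snd (fst v)))) (fst (snd v)))
        (len (snd (snd (snd (fst v)))))))))) (snd (snd v)))
      (snd (U (nested (node (fst (fst v)) (node (snd (fst (snd (fst v))))
          (node (node (fst (snd (snd (fst v)))) (fst (snd v))) (snd (snd (snd (fst v))))))))
        (code T.prog)
        (node (norm (snd (snd (U (join (trie (fst (fst v))) zero) (fst (fst (snd (fst v))))
          (node (fst (snd (snd (fst v)))) (fst (snd v)))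
          (len (snd (snd (snd (fst v))))))))) (snd (snd v)))
        (len (pT T.clk (norm (snd (snd (U (join (trie (fst (fst v))) zero)
          (fst (fst (snd (fst v)))) (node (fst (snd (snd (fst v)))) (fst (snd v)))
          (len (snd (snd (snd (fst v)))))))))))))
      leaf) leaf

theorem FP_ansT (T : TFNP2 zero) : FP zero (ansT T) := by
  have h1 : FP zero (fun v => fst v) := FP.fst' FP.id'
  have h2 : FP zero (fun v => snd v) := FP.snd' FP.id'
  have ht := FP.fst' h1
  have hr := FP.fst' (FP.snd' h1)
  have hx := FP.fst' (FP.snd' (FP.snd' h1))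
  have hK := FP.snd' (FP.snd' (FP.snd' h1))
  have hg := FP.fst' h2
  have hy := FP.snd' h2
  have hU := FP.UTrie ht (FP.fst' hr) (FP.node' hx hg) hK
  have hs := FP.norm' (FP.snd' (FP.snd' hU))
  have hN := FP.UNested (FP.node' ht (FP.node' (FP.snd' hr) (FP.node' (FP.node' hx hg) hK)))
    (FP.const' (code T.prog)) (FP.node' hs hy) (FP.pT' T.clk hs)
  exact FP.cs' (FP.fst' (FP.snd' hU)) (FP.cs' (FP.dropU' (FP.pT' T.p hs) hy) (FP.snd' hN)
    FP.leaf') FP.leaf'

theorem ansT_spec (T : TFNP2 zero) (t r x K : Tr) (h : List (List Bool)) (y : List Bool) :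
    ansT T (node (node t (node r (node x K))) (node (encL h) (enc y))) ≠ leaf ↔
      Ans T (trie t) r x (len K) h y := by
  unfold ansT Ans
  simp only [fst_node, snd_node]
  by_cases h1 : fst (snd (U (join (trie t) zero) (fst r) (node x (encL h)) (len K))) = leaf
  · rw [cs_pos _ _ h1]
    simp only [h1, true_and]
    set s := snd (snd (U (join (trie t) zero) (fst r) (node x (encL h)) (len K))) with hs
    rw [T.isSol_iff]
    simp only [norm_eq, pT_eq, len_enc, len_num]
    by_cases h3 : y.length ≤ T.p.eval (dec s).length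
    · rw [cs_pos _ _ (dropU_eq_leaf.mpr (by rw [len_enc, len_num]; exact h3))]
      simp only [h3, true_and]
      rfl
    · rw [cs_neg _ _ (fun h => h3 (by
        have := dropU_eq_leaf.mp h
        rwa [len_enc, len_num] at this))]
      simp [h3]
  · rw [cs_neg _ _ h1]
    simp [h1]

/-- comparison of lengths -/
def eqN (a b : Tr) : Tr := cs (dropU a b) (cs (dropU b a) tt leaf) leaf

theorem eqN_spec (a b : Tr) : eqN a b ≠ leaf ↔ len a = len b := by
  unfold eqN
  by_cases h1 : len b ≤ len a
  · rw [cs_pos _ _ (dropU_eq_leaf.mpr h1)]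
    by_cases h2 : len a ≤ len b
    · rw [cs_pos _ _ (dropU_eq_leaf.mpr h2)]
      simp only [ne_eq, tt_ne, not_false_eq_true, true_iff]
      omega
    · rw [cs_neg _ _ (fun h => h2 (dropU_eq_leaf.mp h))]
      simp only [ne_eq, not_true_eq_false, false_iff]
      omega
  · rw [cs_neg _ _ (fun h => h1 (dropU_eq_leaf.mp h))]
    simp only [ne_eq, not_true_eq_false, false_iff]
    omega

theorem FP.eqN' {F G : Tr → Tr} (hF : FP zero F) (hG : FP zero G) :
    FP zero (fun v => eqN (F v) (G v)) :=
  FP.cs' (FP.dropU' hF hG) (FP.cs' (FP.dropU' hG hF) (FP.const' _) FP.leaf') FP.leaf'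

/-- final test; inputs `node (node t (node r (node x K))) (node e (node xS K2))` and the
history -/
def endT (p q g : Tr) : Tr :=
  cs (eqN g (node leaf (snd (snd (snd p)))))
    (cs (U (join (trie (fst p)) zero) (fst (fst (snd p))) (node (fst (snd (snd p))) g)
        (len (snd (snd (snd p))))) tt
      (cs (fst (snd (U (join (trie (fst p)) zero) (fst (fst (snd p)))
          (node (fst (snd (snd p))) g) (len (snd (snd (snd p))))))) leaf
        (cs (snd (U (join (trie (fst p)) zero) (fst q) (node (fst (snd q))
          (norm (snd (snd (U (join (trie (fst p)) zero) (fst (fst (snd p)))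
            (node (fst (snd (snd p))) g) (len (snd (snd (snd p))))))))) (len (snd (snd q)))))
          tt leaf))) tt

/-- the test for refutations: `t` table, `r` codes of the reduction, `x` instance, `K` clock,
`e`, `xS`, `K2` acceptance test, `Y` history in chronological order -/
noncomputable def refTT (T : TFNP2 zero) (t r x K e xS K2 Y : Tr) : Tr :=
  cs (snd (snd (snd ((hst (ansT T))^[len Y]
      (node (node t (node r (node x K))) (node Y (node leaf tt))))))) leaf
    (cs (dropU (node leaf K) (fst (snd (snd ((hst (ansT T))^[len Y]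
        (node (node t (node r (node x K))) (node Y (node leaf tt))))))))
      (endT (node t (node r (node x K))) (node e (node xS K2))
        (fst (snd (snd ((hst (ansT T))^[len Y]
          (node (node t (node r (node x K))) (node Y (node leaf tt)))))))) leaf)

theorem len_encL (h : List (List Bool)) : len (encL h) = h.length := by
  induction h with
  | nil => rfl
  | cons y h ih => simp [encL, len, ih]

theorem endT_spec (t r x K e xS K2 : Tr) (h : List (List Bool)) :
    endT (node t (node r (node x K))) (node e (node xS K2)) (encL h) ≠ leaf ↔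
      (h.length = len K + 1 ∨
        U (join (trie t) zero) (fst r) (node x (encL h)) (len K) = leaf ∨
        (fst (snd (U (join (trie t) zero) (fst r) (node x (encL h)) (len K))) ≠ leaf ∧
          ¬ Acc (trie t) e xS (len K2) (dec (snd (snd (U (join (trie t) zero) (fst r)
            (node x (encL h)) (len K))))))) := by
  unfold endT Acc
  simp only [fst_node, snd_node, norm_eq]
  have hlen := eqN_spec (encL h) (node leaf K)
  rw [len_encL, len] at hlen
  by_cases h0 : h.length = len K + 1
  · rw [cs_neg _ _ (hlen.mpr h0)]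
    simp [h0]
  · rw [cs_pos _ _ (by by_contra hcon; exact h0 (hlen.mp hcon))]
    simp only [h0, false_or]
    by_cases h1 : U (join (trie t) zero) (fst r) (node x (encL h)) (len K) = leaf
    · rw [cs_pos _ _ h1]; simp [h1]
    · rw [cs_neg _ _ h1]
      simp only [h1, false_or]
      by_cases h2 : fst (snd (U (join (trie t) zero) (fst r) (node x (encL h)) (len K))) = leaf
      · rw [cs_pos _ _ h2]; simp [h2]
      · rw [cs_neg _ _ h2]
        simp only [h2, ne_eq, not_false_eq_true, true_and, not_not]
        by_cases h3 : snd (U (join (trie t) zero) e (node xS (enc (dec (snd (snd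
            (U (join (trie t) zero) (fst r) (node x (encL h)) (len K))))))) (len K2)) = leaf
        · rw [cs_pos _ _ h3]; simp [h3]
        · rw [cs_neg _ _ h3]; simp [h3]

theorem refTT_spec (T : TFNP2 zero) (t r x K e xS K2 Y : Tr) :
    refTT T t r x K e xS K2 Y ≠ leaf ↔
      RefT T (trie t) r x (len K) e xS (len K2) (decL Y).reverse := by
  obtain ⟨flag, h1, h2⟩ := hst_iter (ansT T) (node t (node r (node x K)))
    (Ans T (trie t) r x (len K)) (ansT_spec T t r x K) Y [] tt (by simp [AllC])
  have h1' : (hst (ansT T))^[len Y] (node (node t (node r (node x K))) (node Y (node leaf tt))) =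
      node (node t (node r (node x K))) (node leaf (node (encL (decL Y).reverse) flag)) := by
    simpa [encL] using h1
  rw [List.append_nil] at h2
  unfold refTT RefT
  rw [h1']
  simp only [snd_node, fst_node]
  by_cases h3 : AllC (Ans T (trie t) r x (len K)) (decL Y).reverse
  · rw [cs_neg _ _ (h2.mpr h3)]
    simp only [h3, true_and]
    by_cases h4 : (decL Y).reverse.length ≤ len K + 1
    · rw [cs_pos _ _ (dropU_eq_leaf.mpr (by rw [len_encL, len]; exact h4)), endT_spec]
      simp only [h4, true_and]
    · rw [cs_neg _ _ (fun h => h4 (by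
        have := dropU_eq_leaf.mp h
        rwa [len_encL, len] at this))]
      simp only [h4, false_and, ne_eq, not_true_eq_false]
  · rw [cs_pos _ _ (by by_contra hcon; exact h3 (h2.mp hcon))]
    simp [h3]

theorem FP.refTT' (T : TFNP2 zero) {E R X K F G L Y : Tr → Tr} (hE : FP zero E) (hR : FP zero R)
    (hX : FP zero X) (hK : FP zero K) (hF : FP zero F) (hG : FP zero G) (hL : FP zero L)
    (hY : FP zero Y) :
    FP zero (fun v => refTT T (E v) (R v) (X v) (K v) (F v) (G v) (L v) (Y v)) := by
  have hp := FP.node' hE (FP.node' hR (FP.node' hX hK))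
  have hit := FP.hst_iter' (FP_ansT T) hY (FP.node' hp (FP.node' hY (FP.const' (node leaf tt))))
  have hg := FP.fst' (FP.snd' (FP.snd' hit))
  have hU := FP.UTrie hE (FP.fst' hR) (FP.node' hX hg) hK
  have hU2 := FP.UTrie hE hF (FP.node' hG (FP.norm' (FP.snd' (FP.snd' hU)))) hL
  have hend := FP.cs' (FP.eqN' hg (FP.node' FP.leaf' hK)) (FP.cs' hU (FP.const' tt)
    (FP.cs' (FP.fst' (FP.snd' hU)) FP.leaf' (FP.cs' (FP.snd' hU2) (FP.const' tt) FP.leaf')))
    (FP.const' tt)
  exact FP.cs' (FP.snd' (FP.snd' (FP.snd' hit))) FP.leaf' (FP.cs' (FP.dropU'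
    (FP.node' FP.leaf' hK) hg) hend FP.leaf')

end Pool.Agent.H93.BB
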