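import Pool.Agent.H93.BB.Inst
import Pool.Agent.H93.BT.RefFP

set_option autoImplicit false

/-!
# The exponential time program that looks for refutations
-/

namespace Pool.Agent.H93.BB

open Pool.Agent.H88.RO Pool.Agent.H88.RO.Tr Pool.Agent.H65.TS

/-- evaluation is deterministic -/
theorem eval_det {O : Orc} {c : Prog} {v w w' : Tr} {t t' : ℕ} (h : Eval O c v w t)
    (h' : Eval O c v w' t') : w = w' := by
  have h1 := U_eq h (K := (size (code c) + 10) * (t + t') + 10)
    (Nat.add_le_add_right (Nat.mul_le_mul_left _ (by omega)) _)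
  have h2 := U_eq h' (K := (size (code c) + 10) * (t + t') + 10)
    (Nat.add_le_add_right (Nat.mul_le_mul_left _ (by omega)) _)
  rw [h1] at h2
  injection h2

/-! ### powers of two -/

/-- doubling -/
def dblU (v : Tr) : Tr := addU v (ulen v)

theorem dblU_iter (n a : ℕ) : dblU^[n] (num a) = num (2 ^ n * a) := by
  induction n with
  | zero => simp
  | succ n ih =>
    rw [Function.iterate_succ_apply', ih, dblU, ulen_eq, addU_num', len_num]
    congr 1; ring

/-- the program computing `2 ^ n` in unary -/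
theorem exists_pow2 : ∃ (c : Prog) (q : Polynomial ℕ), ∀ w : Tr,
    ∃ t ≤ q.eval (size w + 2 ^ len w), Eval zero c w (num (2 ^ len w)) t := by
  obtain ⟨cD, qD, hD⟩ : FP zero dblU := FP.addU' FP.id' (FP.ulen' FP.id')
  obtain ⟨cI, qI, hI⟩ : FP zero (fun v => node v (num 1)) := FP.node' FP.id' (FP.const' _)
  refine ⟨Prog.comp (Prog.loop (FP.loopBody cD)) cI,
    qI + (Polynomial.X + 1) * (qD.comp (2 * Polynomial.X + 1) +
      7 * (Polynomial.X + (2 * Polynomial.X + 1) + 2)) + Polynomial.X + 1, fun w => ?_⟩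
  obtain ⟨t1, ht1, he1⟩ := hI w
  obtain ⟨t2, ht2, he2⟩ := FP.eval_loop (O := zero) hD (2 * 2 ^ len w + 1) w (num 1) (by
    intro i hi
    rw [dblU_iter, mul_one, size_num]
    have := Nat.pow_le_pow_right (show 0 < 2 by norm_num) hi
    omega)
  rw [dblU_iter, mul_one] at he2
  refine ⟨_, ?_, Eval.comp he1 he2⟩
  simp only [Polynomial.eval_add, Polynomial.eval_mul, Polynomial.eval_comp, Polynomial.eval_X,
    Polynomial.eval_one, Polynomial.eval_ofNat]
  have h0 : 0 < 2 ^ len w := by positivity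
  generalize 2 ^ len w = p at *
  have h1 : qI.eval (size w) ≤ qI.eval (size w + p) := poly_mono _ (by omega)
  have h2 : qD.eval (2 * p + 1) ≤ qD.eval (2 * (size w + p) + 1) :=
    poly_mono _ (by omega)
  have h3 : (len w + 1) * (qD.eval (2 * p + 1) + 7 * (size w + (2 * p + 1) + 2)) ≤
      (size w + p + 1) * (qD.eval (2 * (size w + p) + 1) +
        7 * (size w + p + (2 * (size w + p) + 1) + 2)) := by
    apply Nat.mul_le_mul
    · have := len_le_size w
      omega
    · omega
  omega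

/-- polynomials at powers of two -/
theorem poly_pow2 (P : Polynomial ℕ) : ∃ C : ℕ, ∀ n, P.eval (2 ^ n) ≤ 2 ^ (C * n + C) := by
  induction P using Polynomial.induction_on' with
  | add p q hp hq =>
    obtain ⟨C, hC⟩ := hp
    obtain ⟨D, hD⟩ := hq
    refine ⟨C + D + 1, fun n => ?_⟩
    rw [Polynomial.eval_add]
    have h1 := hC n
    have h2 := hD n
    have h3 : 2 ^ (C * n + C) ≤ 2 ^ ((C + D) * n + (C + D)) :=
      Nat.pow_le_pow_right (by norm_num) (by nlinarith [Nat.zero_le (D * n)])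
    have h4 : 2 ^ (D * n + D) ≤ 2 ^ ((C + D) * n + (C + D)) :=
      Nat.pow_le_pow_right (by norm_num) (by nlinarith [Nat.zero_le (C * n)])
    have h5 : 2 ^ ((C + D) * n + (C + D)) * 2 ≤ 2 ^ ((C + D + 1) * n + (C + D + 1)) := by
      rw [← pow_succ]
      exact Nat.pow_le_pow_right (by norm_num) (by nlinarith [Nat.zero_le n])
    omega
  | monomial k a =>
    refine ⟨k + a, fun n => ?_⟩
    rw [Polynomial.eval_monomial, ← pow_mul]
    have h1 : a ≤ 2 ^ a := Nat.lt_two_pow_self.le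
    calc a * 2 ^ (n * k) ≤ 2 ^ a * 2 ^ (n * k) := Nat.mul_le_mul_right _ h1
      _ = 2 ^ (a + n * k) := by rw [pow_add]
      _ ≤ 2 ^ ((k + a) * n + (k + a)) :=
        Nat.pow_le_pow_right (by norm_num) (by nlinarith [Nat.zero_le (a * n), Nat.zero_le k])

/-! ### the program -/

/-- the small instance -/
def z1 (s i κ j m : ℕ) : List Bool := uns [s, i, κ, j, m] []

/-- the big instance -/
def zz (s i κ j m : ℕ) : List Bool := uns [s, i, κ, j, m] (List.replicate (2 ^ m) true)

/-- the big instance with the numbers of the string `z` -/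
def zb (z : List Bool) : List Bool := zz (fd 0 z) (fd 1 z) (fd 2 z) (fd 3 z) (fd 4 z)

theorem zb_z1 (s i κ j m : ℕ) : zb (z1 s i κ j m) = zz s i κ j m := by
  unfold zb z1
  rw [fd_uns _ _ 0 (by simp), fd_uns _ _ 1 (by simp), fd_uns _ _ 2 (by simp),
    fd_uns _ _ 3 (by simp), fd_uns _ _ 4 (by simp)]
  rfl

/-- polynomial time part of the program; inputs `node (node K N) (node z Y)` -/
noncomputable def VT (T : TFNP2 zero) (u : Tr) : Tr :=
  refTT T (fst (snd (snd u))) (machT (fdT 1 (fst (snd u))))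
    (unsT [fdT 0 (fst (snd u)), fdT 1 (fst (snd u)), fdT 2 (fst (snd u)), fdT 3 (fst (snd u)),
      fdT 4 (fst (snd u))] (onesPre (snd (fst u)) leaf)) (fst (fst u))
    (machT (fdT 0 (fst (snd u))))
    (unsT [fdT 0 (fst (snd u)), fdT 1 (fst (snd u)), fdT 2 (fst (snd u)), fdT 3 (fst (snd u)),
      fdT 4 (fst (snd u))] (onesPre (snd (fst u)) leaf)) (fst (fst u))
    (snd (snd (snd u)))

theorem FP_VT (T : TFNP2 zero) : FP zero (VT T) := by
  have hz : FP zero (fun u => fst (snd u)) := FP.fst' (FP.snd' FP.id')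
  have hY : FP zero (fun u => snd (snd u)) := FP.snd' (FP.snd' FP.id')
  have hK : FP zero (fun u => fst (fst u)) := FP.fst' (FP.fst' FP.id')
  have hN : FP zero (fun u => snd (fst u)) := FP.snd' (FP.fst' FP.id')
  have hZ := FP.uns5' (FP.fdT' 0 hz) (FP.fdT' 1 hz) (FP.fdT' 2 hz) (FP.fdT' 3 hz) (FP.fdT' 4 hz)
    (FP.onesPre' hN FP.leaf')
  exact FP.refTT' T (FP.fst' hY) (FP.machT' (FP.fdT' 1 hz)) hZ hK (FP.machT' (FP.fdT' 0 hz)) hZ hK
    (FP.snd' hY)

theorem VT_eq (T : TFNP2 zero) (z : List Bool) (Y : Tr) :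
    VT T (node (node (num (2 ^ fd 2 z)) (num (2 ^ fd 4 z))) (node (enc z) Y)) =
      refTT T (fst Y) (mach (fd 1 z)) (enc (zb z)) (num (2 ^ fd 2 z)) (mach (fd 0 z)) (enc (zb z))
        (num (2 ^ fd 2 z)) (snd Y) := by
  unfold VT
  simp only [fst_node, snd_node, fdT_enc, machT_eq, len_num, onesPre_leaf, unsT_eq, List.map]
  rfl

/-- The exponential time program. -/
theorem exists_W (T : TFNP2 zero) : ∃ (cW : Prog) (q : Polynomial ℕ), ∀ (z : List Bool) (Y : Tr),
    ∃ t ≤ q.eval (size (node (enc z) Y) + 2 ^ fd 2 z + 2 ^ fd 4 z),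
      Eval zero cW (node (enc z) Y)
        (refTT T (fst Y) (mach (fd 1 z)) (enc (zb z)) (num (2 ^ fd 2 z)) (mach (fd 0 z))
          (enc (zb z)) (num (2 ^ fd 2 z)) (snd Y)) t := by
  obtain ⟨cV, qV, hV⟩ := FP_VT T
  obtain ⟨cP, qP, hP⟩ := exists_pow2
  obtain ⟨ck, qk, hk⟩ : FP zero (fun v => fdT 2 (fst v)) := FP.fdT' 2 (FP.fst' FP.id')
  obtain ⟨cm, qm, hm⟩ : FP zero (fun v => fdT 4 (fst v)) := FP.fdT' 4 (FP.fst' FP.id')
  refine ⟨Prog.comp cV (Prog.pair (Prog.pair (Prog.comp cP ck) (Prog.comp cP cm)) Prog.id),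
    qV.comp (6 * Polynomial.X + 6) + qP.comp (3 * Polynomial.X + 3) + qP.comp (3 * Polynomial.X + 3)
      + qk + qm + 10 * Polynomial.X + 10, fun z Y => ?_⟩
  set v := node (enc z) Y with hv
  obtain ⟨t1, ht1, he1⟩ := hk v
  obtain ⟨t2, ht2, he2⟩ := hm v
  have e1 : fdT 2 (fst v) = num (fd 2 z) := by rw [hv, fst_node, fdT_enc]
  have e2 : fdT 4 (fst v) = num (fd 4 z) := by rw [hv, fst_node, fdT_enc]
  simp only [e1] at he1
  simp only [e2] at he2
  obtain ⟨t3, ht3, he3⟩ := hP (num (fd 2 z))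
  obtain ⟨t4, ht4, he4⟩ := hP (num (fd 4 z))
  rw [len_num] at he3 he4 ht3 ht4
  obtain ⟨t5, ht5, he5⟩ := hV (node (node (num (2 ^ fd 2 z)) (num (2 ^ fd 4 z))) v)
  have he := Eval.comp (Eval.pair (Eval.pair (Eval.comp he1 he3) (Eval.comp he2 he4))
    (Eval.id v)) he5
  rw [hv, VT_eq, ← hv] at he
  refine ⟨_, ?_, he⟩
  have hs1 : size (num (fd 2 z)) ≤ 2 * size v := by
    rw [size_num]
    have h1 := fd_rs_le z 0
    have h2 := fd_rs_le z 1
    have h3 := fd_rs_le z 2
    have h4 : len (enc z) + 1 ≤ size (enc z) := len_le_size _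
    rw [len_enc] at h4
    rw [hv]
    simp only [rs, size] at *
    omega
  have hs2 : size (num (fd 4 z)) ≤ 2 * size v := by
    rw [size_num]
    have h1 := fd_rs_le z 0
    have h2 := fd_rs_le z 1
    have h3 := fd_rs_le z 2
    have h3' := fd_rs_le z 3
    have h3'' := fd_rs_le z 4
    have h4 : len (enc z) + 1 ≤ size (enc z) := len_le_size _
    rw [len_enc] at h4
    rw [hv]
    simp only [rs, size] at *
    omega
  simp only [size, size_num] at ht5
  simp only [Polynomial.eval_add, Polynomial.eval_mul, Polynomial.eval_comp, Polynomial.eval_X,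
    Polynomial.eval_ofNat]
  generalize 2 ^ fd 2 z = p1 at *
  generalize 2 ^ fd 4 z = p2 at *
  have b1 : qV.eval (2 * p1 + 1 + (2 * p2 + 1) + 1 + size v + 1) ≤
      qV.eval (6 * (size v + p1 + p2) + 6) := poly_mono _ (by omega)
  have b2 : qP.eval (size (num (fd 2 z)) + p1) ≤ qP.eval (3 * (size v + p1 + p2) + 3) :=
    poly_mono _ (by omega)
  have b3 : qP.eval (size (num (fd 4 z)) + p2) ≤ qP.eval (3 * (size v + p1 + p2) + 3) :=
    poly_mono _ (by omega)
  have b4 : qk.eval (size v) ≤ qk.eval (size v + p1 + p2) := poly_mono _ (by omega)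
  have b5 : qm.eval (size v) ≤ qm.eval (size v + p1 + p2) := poly_mono _ (by omega)
  omega

/-- The interface of the exponential time program: `cW` accepts `(z, Y)` for some `Y` iff there
is a refutation of reduction number `i` at the big instance `zz s i κ j m`, tested by program
number `s`; and then it can be accepted in time `2 ^ (C * |z| + C)`. -/
theorem exists_search (T : TFNP2 zero) : ∃ (cW : Prog) (C : ℕ), ∀ s i κ j m : ℕ, m ≤ κ →
    (∀ Y v t, v ≠ leaf → Eval zero cW (node (enc (z1 s i κ j m)) Y) v t → ∃ A h,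
      RefT T A (mach i) (enc (zz s i κ j m)) (2 ^ κ) (mach s) (enc (zz s i κ j m)) (2 ^ κ) h) ∧
    (∀ A h, RefT T A (mach i) (enc (zz s i κ j m)) (2 ^ κ) (mach s) (enc (zz s i κ j m))
      (2 ^ κ) h → ∃ Y v t, v ≠ leaf ∧ Eval zero cW (node (enc (z1 s i κ j m)) Y) v t ∧
        t ≤ 2 ^ (C * (z1 s i κ j m).length + C)) := by
  obtain ⟨cW, q, hW⟩ := exists_W T
  obtain ⟨PB, hPB⟩ := exists_tableT T
  obtain ⟨C, hC⟩ := poly_pow2 (q.comp (10 * Polynomial.X + 5 * PB.comp (2 * Polynomial.X) + 10))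
  refine ⟨cW, C, fun s i κ j m hm => ⟨?_, ?_⟩⟩
  · intro Y v t hv he
    obtain ⟨t', _, he'⟩ := hW (z1 s i κ j m) Y
    rw [eval_det he he'] at hv
    have h1 := (refTT_spec T _ _ _ _ _ _ _ _).mp hv
    rw [zb_z1] at h1
    unfold z1 at h1
    rw [fd_uns _ _ 0 (by simp), fd_uns _ _ 1 (by simp), fd_uns _ _ 2 (by simp)] at h1
    simp only [len_num, List.getElem_cons_zero, List.getElem_cons_succ] at h1
    exact ⟨_, _, h1⟩
  · intro A hs h
    obtain ⟨tb, h1, h2, h3⟩ := hPB A _ _ _ _ _ _ hs h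
    obtain ⟨t', ht', he'⟩ := hW (z1 s i κ j m) (node tb (encL hs.reverse))
    refine ⟨_, _, _, ?_, he', ht'.trans ?_⟩
    · rw [refTT_spec, zb_z1]
      unfold z1
      rw [fd_uns _ _ 0 (by simp), fd_uns _ _ 1 (by simp), fd_uns _ _ 2 (by simp)]
      simp only [len_num, List.getElem_cons_zero, List.getElem_cons_succ, fst_node, snd_node,
        decL_encL, List.reverse_reverse]
      exact h3
    · have hC' := hC (z1 s i κ j m).length
      rw [Polynomial.eval_comp] at hC'
      refine le_trans (poly_mono _ ?_) hC'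
      simp only [Polynomial.eval_add, Polynomial.eval_mul, Polynomial.eval_comp, Polynomial.eval_X,
        Polynomial.eval_ofNat]
      have e2 : fd 2 (z1 s i κ j m) = κ := by
        unfold z1; rw [fd_uns _ _ 2 (by simp)]; rfl
      have e4 : fd 4 (z1 s i κ j m) = m := by
        unfold z1; rw [fd_uns _ _ 4 (by simp)]; rfl
      rw [e2, e4]
      have hL : κ ≤ (z1 s i κ j m).length := by
        unfold z1; rw [uns_length]; simp; omega
      have b1 : 2 ^ κ ≤ 2 ^ (z1 s i κ j m).length := Nat.pow_le_pow_right (by norm_num) hL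
      have b2 : 2 ^ m ≤ 2 ^ (z1 s i κ j m).length :=
        Nat.pow_le_pow_right (by norm_num) (hm.trans hL)
      have b3 : (z1 s i κ j m).length ≤ 2 ^ (z1 s i κ j m).length := Nat.lt_two_pow_self.le
      have b4 : PB.eval (2 ^ κ + 2 ^ κ) ≤ PB.eval (2 * 2 ^ (z1 s i κ j m).length) :=
        poly_mono _ (by omega)
      have b5 := size_enc_le (z1 s i κ j m)
      simp only [size]
      generalize 2 ^ κ = p1 at *
      generalize 2 ^ m = p2 at *
      generalize 2 ^ (z1 s i κ j m).length = p3 at *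
      omega

end Pool.Agent.H93.BB
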