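import Pool.Agent.H93.BT.Refute
import Pool.Agent.H93.BB.RefFP

set_option autoImplicit false

/-!
# Checking histories in polynomial time
-/

namespace Pool.Agent.H93.BB

open Pool.Agent.H88.RO Pool.Agent.H88.RO.Tr Pool.Agent.H65.TS

/-- the list of strings coded by a tree -/
def decL : Tr → List (List Bool)
  | leaf => []
  | node a b => dec a :: decL b

@[simp] theorem decL_encL (h : List (List Bool)) : decL (encL h) = h := by
  induction h with
  | nil => rfl
  | cons y h ih => simp [encL, decL, ih]

theorem size_encL_le (h : List (List Bool)) (b : ℕ) (hb : ∀ y ∈ h, y.length ≤ b) :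
    size (encL h) ≤ h.length * (4 * b + 2) + 1 := by
  induction h with
  | nil => simp [encL, size]
  | cons y h ih =>
    have h1 := ih (fun z hz => hb z (List.mem_cons_of_mem _ hz))
    have h2 := size_enc_le y
    have h3 := hb y List.mem_cons_self
    have h4 : (h.length + 1) * (4 * b + 2) = h.length * (4 * b + 2) + (4 * b + 2) := by ring
    simp only [encL, size, List.length_cons, h4]
    omega

theorem size_norm_le (a : Tr) : size (norm a) ≤ 4 * size a := by
  rw [norm_eq]
  have h1 := size_enc_le (dec a)
  have h2 := len_le_size a
  rw [length_dec] at h1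
  omega

/-- one step of the check; states are `node θ (node rest (node history flag))` -/
def hst (chk : Tr → Tr) (s : Tr) : Tr :=
  node (fst s) (cs (fst (snd s)) (snd s)
    (node (snd (fst (snd s)))
      (node (node (norm (fst (fst (snd s)))) (fst (snd (snd s))))
        (cs (snd (snd (snd s))) leaf
          (cs (chk (node (fst s) (node (fst (snd (snd s))) (norm (fst (fst (snd s))))))) leaf
            tt)))))

theorem FP_hst {chk : Tr → Tr} (h : FP zero chk) : FP zero (hst chk) := by
  have h1 : FP zero (fun s => fst s) := FP.fst' FP.id'
  have h2 : FP zero (fun s => snd s) := FP.snd' FP.id'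
  have hr := FP.fst' h2
  have hg := FP.fst' (FP.snd' h2)
  have hf := FP.snd' (FP.snd' h2)
  have hn := FP.norm' (FP.fst' hr)
  exact FP.node' h1 (FP.cs' hr h2 (FP.node' (FP.snd' hr) (FP.node' (FP.node' hn hg)
    (FP.cs' hf FP.leaf' (FP.cs' (FP.comp' h (FP.node' h1 (FP.node' hg hn))) FP.leaf'
      (FP.const' _))))))

theorem hst_iter_size (chk : Tr → Tr) (x : Tr) (i : ℕ) :
    size ((hst chk)^[i] x) ≤ 10 * size x + 10 := by
  have h1 : ∀ i, size (fst ((hst chk)^[i] x)) ≤ size x ∧
      5 * size (fst (snd ((hst chk)^[i] x))) + size (fst (snd (snd ((hst chk)^[i] x)))) ≤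
        6 * size x + 6 ∧
      size (snd (snd (snd ((hst chk)^[i] x)))) ≤ size x + 3 := by
    intro i
    induction i with
    | zero =>
      simp only [Function.iterate_zero, id]
      have a1 := size_fst_le x
      have a2 := size_snd_le x
      have a3 := size_fst_le (snd x)
      have a4 := size_snd_le (snd x)
      have a5 := size_fst_le (snd (snd x))
      have a6 := size_snd_le (snd (snd x))
      omega
    | succ i ih =>
      rw [Function.iterate_succ_apply']
      generalize (hst chk)^[i] x = s at *
      obtain ⟨b1, b2, b3⟩ := ih
      unfold hst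
      by_cases hr : fst (snd s) = leaf
      · rw [cs_pos _ _ hr]
        simp only [fst_node, snd_node]
        exact ⟨b1, b2, b3⟩
      · rw [cs_neg _ _ hr]
        simp only [fst_node, snd_node]
        refine ⟨b1, ?_, ?_⟩
        · cases hq : fst (snd s) with
          | leaf => exact absurd hq hr
          | node a b =>
            rw [hq] at b2
            have c1 : size (norm a) ≤ 4 * len a + 1 := by
              rw [norm_eq]
              have := size_enc_le (dec a)
              rwa [length_dec] at this
            have c2 := len_le_size a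
            simp only [fst_node, snd_node, size] at *
            omega
        · unfold cs
          split_ifs <;> simp [size, tt]
  obtain ⟨b1, b2, b3⟩ := h1 i
  have b0 := size_pos x
  generalize (hst chk)^[i] x = s at *
  cases s with
  | leaf => simp [size]
  | node a s =>
    cases s with
    | leaf => simp [size, fst, snd] at *; omega
    | node b s =>
      cases s with
      | leaf => simp [size, fst, snd] at *; omega
      | node c d => simp [size, fst, snd] at *; omega

theorem FP.hst_iter' {chk : Tr → Tr} (h : FP zero chk) {N X : Tr → Tr} (hN : FP zero N)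
    (hX : FP zero X) : FP zero (fun v => (hst chk)^[len (N v)] (X v)) := by
  refine FP.iterate' (FP_hst h) hN hX ⟨10 * Polynomial.X + 10, fun n x i _ => ?_⟩
  have := hst_iter_size chk x i
  simp only [Polynomial.eval_add, Polynomial.eval_mul, Polynomial.eval_X, Polynomial.eval_ofNat]
  omega

theorem hst_iter (chk : Tr → Tr) (θ : Tr) (P : List (List Bool) → List Bool → Prop)
    (hP : ∀ h y, chk (node θ (node (encL h) (enc y))) ≠ leaf ↔ P h y) (Y : Tr) :
    ∀ (g : List (List Bool)) (flag : Tr), (flag ≠ leaf ↔ AllC P g) →
      ∃ flag', (hst chk)^[len Y] (node θ (node Y (node (encL g) flag))) =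
        node θ (node leaf (node (encL ((decL Y).reverse ++ g)) flag')) ∧
        (flag' ≠ leaf ↔ AllC P ((decL Y).reverse ++ g)) := by
  induction Y with
  | leaf =>
    intro g flag h
    exact ⟨flag, by simp [len, decL], by simpa [decL] using h⟩
  | node a b _ ihb =>
    intro g flag h
    rw [len, Function.iterate_succ_apply]
    have h1 : hst chk (node θ (node (node a b) (node (encL g) flag))) =
        node θ (node b (node (encL (dec a :: g)) (cs flag leaf
          (cs (chk (node θ (node (encL g) (enc (dec a))))) leaf tt)))) := by
      unfold hst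
      simp only [fst_node, snd_node, norm_eq]
      rw [cs_neg _ _ (by simp)]
      rfl
    rw [h1]
    have h2 : (cs flag leaf (cs (chk (node θ (node (encL g) (enc (dec a))))) leaf tt)) ≠ leaf ↔
        AllC P (dec a :: g) := by
      have h3 := hP g (dec a)
      unfold AllC
      rw [← h, ← h3]
      by_cases c1 : flag = leaf
      · rw [cs_pos _ _ c1]; simp [c1]
      · rw [cs_neg _ _ c1]
        by_cases c2 : chk (node θ (node (encL g) (enc (dec a)))) = leaf
        · rw [cs_pos _ _ c2]; simp [c2]
        · rw [cs_neg _ _ c2]; simp [c1, c2]
    obtain ⟨flag', h3, h4⟩ := ihb (dec a :: g) _ h2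
    refine ⟨flag', ?_, ?_⟩
    · rw [h3]
      simp [decL]
    · rw [h4]
      simp [decL]

end Pool.Agent.H93.BB
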