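import Pool.Agent.H93.BB.Defs

set_option autoImplicit false

/-!
# Type-2 Turing reductions

A Turing reduction may ask for solutions of several instances `(A', s)` of the problem `T`; each
instance may depend on the answers obtained so far.
-/

namespace Pool.Agent.H93.BB

open Pool.Agent.H88.RO Pool.Agent.H88.RO.Tr

variable {B : Orc}

/-- A list of strings as a tree. -/
def encL : List (List Bool) → Tr
  | [] => leaf
  | y :: h => node (enc y) (encL h)

/-- The possible histories of the Turing reduction to `T` with the programs `cf`, `cF`, at the
instance `(A, x)`: lists of answers, the last one first.  If the output of `cf` is `s`, marked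
with `leaf`, then the reduction asks for a solution of the instance `(A', s)` of `T`, where `A'` is
the oracle whose bits are computed by `cF`, and any solution is a possible answer. -/
inductive Hist (T : TFNP2 B) (cf cF : Prog) (A : Orc) (x : List Bool) : List (List Bool) → Prop
  | nil : Hist T cf cF A x []
  | cons {h : List (List Bool)} {s y : List Bool} {A' : Orc} (hh : Hist T cf cF A x h)
      (hf : ∃ t, Eval (join A B) cf (node (enc x) (encL h)) (node leaf (enc s)) t)
      (hF : ∀ w : List Bool, ∃ t,
        Eval (join A B) cF (node (node (enc x) (encL h)) (enc w)) (bit (A' w)) t)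
      (hy : T.IsSol A' s y) : Hist T cf cF A x (y :: h)

/-- The Turing reduction to `T` with the programs `cf`, `cF`, running in time `τ`, solves the
instance `(A, x)` of `S`, whatever the answers are: it asks for at most `τ |x|` solutions of
instances of `T`, each question and the final output (marked with `tt`) is computed in time `τ |x|`,
and the bit `A' w` of the oracle of a question is computed in time `τ (|x| + |w|)`. -/
def TurAt (τ : ℕ → ℕ) (S T : TFNP2 B) (cf cF : Prog) (A : Orc) (x : List Bool) : Prop :=
  ∀ h, Hist T cf cF A x h → h.length ≤ τ x.length ∧
    ((∃ (A' : Orc) (s : List Bool),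
        (∃ t ≤ τ x.length,
          Eval (join A B) cf (node (enc x) (encL h)) (node leaf (enc s)) t) ∧
        ∀ w : List Bool, ∃ t ≤ τ (x.length + w.length),
          Eval (join A B) cF (node (node (enc x) (encL h)) (enc w)) (bit (A' w)) t) ∨
      (∃ z : List Bool, (∃ t ≤ τ x.length,
          Eval (join A B) cf (node (enc x) (encL h)) (node (bit true) (enc z)) t) ∧
        S.IsSol A x z))

/-- Type-2 Turing reducibility by programs running in time `τ`. -/
def TFNP2.TuringWithin (τ : ℕ → ℕ) (S T : TFNP2 B) : Prop :=
  ∃ cf cF : Prog, ∀ (A : Orc) (x : List Bool), TurAt τ S T cf cF A x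

end Pool.Agent.H93.BB
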