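import Pool.Agent.H93.BT.S0
import Pool.Agent.H93.BB.Ineq
import Pool.Agent.H93.BB.Jfp

set_option autoImplicit false

/-!
# The problems `S1` and the final argument
-/

namespace Pool.Agent.H93.BB

open Pool.Agent.H88.RO Pool.Agent.H88.RO.Tr Pool.Agent.H65.TS

namespace Dat

variable {T : TFNP2 zero} (D : Dat T)

/-- conditions on the numbers of an instance of `S1` -/
def Ok (i κ j m : ℕ) : Prop := D.s0 ≤ κ ∧ i ≤ κ ∧ j ≤ κ ∧ m ≤ κ

/-- the string for the tableau problem -/
noncomputable def tz (i d : ℕ) (x : List Bool) : List Bool :=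
  z1 D.s0 i ((fd 1 x + 2) ^ d) (fd 0 x) (fd 1 x)

open Classical in
/-- the relation of `S1` -/
noncomputable def RelS1 (i d : ℕ) (A : Orc) (x u : List Bool) : Bool :=
  if D.Ok i ((fd 1 x + 2) ^ d) (fd 0 x) (fd 1 x) then D.tab.R1 A (D.tz i d x) u else true

/-- bound for the length of `tz` -/
noncomputable def pz (i d : ℕ) : Polynomial ℕ :=
  Polynomial.C (D.s0 + i + 5) + (Polynomial.X + 2) ^ d + 2 * Polynomial.X

theorem tz_length_le (i d : ℕ) (x : List Bool) : (D.tz i d x).length ≤ (D.pz i d).eval x.length := by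
  unfold tz z1 pz
  rw [uns_length]
  have h0 := fd_rs_le x 0
  have h1 := fd_rs_le x 1
  simp only [rs] at h0 h1
  have h2 : (fd 1 x + 2) ^ d ≤ (x.length + 2) ^ d := Nat.pow_le_pow_left (by omega) _
  simp only [List.sum_cons, List.sum_nil, List.length_cons, List.length_nil, Polynomial.eval_add,
    Polynomial.eval_C, Polynomial.eval_pow, Polynomial.eval_X, Polynomial.eval_ofNat,
    Polynomial.eval_mul]
  omega

/-- the exponent in unary -/
noncomputable def kT (d : ℕ) (x : Tr) : Tr := powU d (addU (fdT 1 x) (num 2))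

theorem kT_enc (d : ℕ) (x : List Bool) : kT d (enc x) = num ((fd 1 x + 2) ^ d) := by
  unfold kT
  rw [fdT_enc, addU_num, powU_eq, len_num]

open Classical in
theorem polyTime_S1 (i d : ℕ) : ∃ (c : Prog) (q : Polynomial ℕ), ∀ (A : Orc) (x y : List Bool),
    ∃ t ≤ q.eval (x.length + y.length),
      Eval (join A zero) c (node (enc x) (enc y)) (bit (D.RelS1 i d A x y)) t := by
  have hx : FP zero (fun v => fst v) := FP.fst' FP.id'
  have hk : FP zero (fun v => kT d (fst v)) := FP.powU' d (FP.addU' (FP.fdT' 1 hx) (FP.const' _))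
  have hz : FP zero (fun v => unsT [num D.s0, num i, kT d (fst v), fdT 0 (fst v),
      fdT 1 (fst v)] leaf) :=
    FP.uns5' (FP.const' _) (FP.const' _) hk (FP.fdT' 0 hx) (FP.fdT' 1 hx) FP.leaf'
  have hV : FP zero (fun v => cs (dropU (kT d (fst v)) (num D.s0)) (cs (dropU (kT d (fst v)) (num i))
      (cs (dropU (kT d (fst v)) (fdT 0 (fst v))) (cs (dropU (kT d (fst v)) (fdT 1 (fst v)))
        tt leaf) leaf) leaf) leaf) :=
    FP.cs' (FP.dropU' hk (FP.const' _)) (FP.cs' (FP.dropU' hk (FP.const' _)) (FP.cs'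
      (FP.dropU' hk (FP.fdT' 0 hx)) (FP.cs' (FP.dropU' hk (FP.fdT' 1 hx)) (FP.const' _) FP.leaf')
      FP.leaf') FP.leaf') FP.leaf'
  have hR := JFP.comp' (JFP.of_rel D.tab.run) (JFP.pure (B := zero) (FP.node' hz (FP.snd' FP.id')))
  refine exists_of_JFP (JFP.cs' (JFP.pure (B := zero) hV) (JFP.pure (FP.const' tt)) hR) ?_
  intro A x y
  have e1 : unsT [num D.s0, num i, kT d (fst (node (enc x) (enc y))),
      fdT 0 (fst (node (enc x) (enc y))), fdT 1 (fst (node (enc x) (enc y)))] leaf =
      enc (D.tz i d x) := by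
    have : (leaf : Tr) = enc [] := rfl
    rw [fst_node, kT_enc, fdT_enc, fdT_enc, this, unsT_eq]
    simp [len_num, tz, z1]
  simp only [e1]
  simp only [fst_node, snd_node, dec_enc, kT_enc, fdT_enc]
  unfold RelS1
  by_cases h : D.Ok i ((fd 1 x + 2) ^ d) (fd 0 x) (fd 1 x)
  · rw [if_pos h, cs_neg, bit_ne_leaf]
    simp only [cs_ne_leaf_iff, dropU_eq_leaf, len_num, tt_ne, ne_eq, not_false_eq_true, and_true]
    exact h
  · rw [if_neg h, cs_pos]
    · simp
    · by_contra hcon
      rw [← ne_eq] at hcon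
      simp only [cs_ne_leaf_iff, dropU_eq_leaf, len_num, tt_ne, ne_eq, not_false_eq_true,
        and_true] at hcon
      exact h hcon

/-- the problem `S1`, if it is total -/
noncomputable def S1 (i d : ℕ) (h : ∀ (A : Orc) (x : List Bool), ∃ u, D.RelS1 i d A x u = true) :
    TFNP2 zero where
  R := D.RelS1 i d
  p := D.tab.q1.comp (D.pz i d)
  polyTime := D.polyTime_S1 i d
  total := by
    intro A x
    obtain ⟨u, hu⟩ := h A x
    by_cases hOk : D.Ok i ((fd 1 x + 2) ^ d) (fd 0 x) (fd 1 x)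
    · refine ⟨u, ?_, hu⟩
      unfold RelS1 at hu
      rw [if_pos hOk] at hu
      rw [Polynomial.eval_comp]
      exact (D.tab.short A _ u hu).trans (poly_mono _ (D.tz_length_le i d x))
    · exact ⟨[], by simp, by unfold RelS1; rw [if_neg hOk]⟩

/-- If reduction number `i` has no refutation at the big instance, then the tableau problem has
a solution. -/
theorem exists_R1 {i κ j m : ℕ} (hm : m ≤ κ) (h : ∀ (A : Orc) (y : List (List Bool)),
    ¬ RefT T A (mach i) (enc (zz D.s0 i κ j m)) (2 ^ κ) (mach D.s0)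
      (enc (zz D.s0 i κ j m)) (2 ^ κ) y) (A : Orc) :
    ∃ u, D.tab.R1 A (z1 D.s0 i κ j m) u = true := by
  by_contra hcon
  push Not at hcon
  obtain ⟨Y, v, t, hv, he⟩ := D.tab.sound (z1 D.s0 i κ j m)
    ⟨A, fun u => by simpa using hcon u⟩
  obtain ⟨A', y, hy⟩ := (D.search D.s0 i κ j m hm).1 Y v t hv he
  exact h A' y hy

end Dat

/-- the number of a reduction -/
noncomputable def redNum (cf cF : Prog) : ℕ :=
  sval (rpn (node (code cf) (code cF)))

theorem mach_redNum (cf cF : Prog) :
    mach (redNum cf cF) = node (code cf) (code cF) := mach_sval _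

theorem qp_mono (k : ℕ) : Monotone (qp k) := by
  intro a b h
  unfold qp
  exact Nat.pow_le_pow_right (by norm_num)
    (Nat.add_le_add_right (Nat.pow_le_pow_left (Nat.size_le_size h) _) _)

/-- **The main argument.** -/
theorem no_complete {T : TFNP2 zero} (D : Dat T) :
    ∃ S : TFNP2 zero, ∀ k, ¬ S.TuringWithin (qp k) T := by
  by_contra hcon
  push Not at hcon
  -- a reduction of `S0`
  obtain ⟨k0, cf, cF, hred⟩ := hcon D.S0
  set i := redNum cf cF with hi
  have hmi : mach i = node (code cf) (code cF) := mach_redNum cf cF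
  set a0 := size (code cf) + size (code cF) + 10 with ha0
  set P0 : Polynomial ℕ := (Polynomial.X + T.clk).comp (2 * Polynomial.X) +
    Polynomial.C (size (code D.c0) + 10) * D.q0.comp (Polynomial.X + D.S0.p) + 10 with hP0
  obtain ⟨d0, hd0⟩ := clock_one k0 a0 P0
  obtain ⟨d, hd, hd1⟩ : ∃ d, d0 ≤ d ∧ 1 ≤ d := ⟨d0 + 1, by omega, by omega⟩
  -- there is no refutation of it
  have hno : ∀ (j m : ℕ), D.Ok i ((m + 2) ^ d) j m → ∀ (A : Orc) (y : List (List Bool)),
      ¬ RefT T A (mach i) (enc (zz D.s0 i ((m + 2) ^ d) j m)) (2 ^ ((m + 2) ^ d)) (mach D.s0)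
        (enc (zz D.s0 i ((m + 2) ^ d) j m)) (2 ^ ((m + 2) ^ d)) y := by
    intro j m hOk A y
    rw [hmi]
    obtain ⟨o1, o2, o3, o4⟩ := hOk
    have hlen : (zz D.s0 i ((m + 2) ^ d) j m).length ≤ 5 * (m + 2) ^ d + 5 + 2 ^ m := by
      unfold zz
      rw [uns_length]
      simp only [List.sum_cons, List.sum_nil, List.length_cons, List.length_nil,
        List.length_replicate]
      omega
    have hclk := hd0 d hd m _ hlen
    set Z := zz D.s0 i ((m + 2) ^ d) j m with hZ
    have hP1 : (Polynomial.X + T.clk).eval (2 * (Z.length + qp k0 Z.length)) ≤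
        P0.eval (Z.length + qp k0 Z.length) := by
      rw [hP0]
      simp only [Polynomial.eval_add, Polynomial.eval_comp, Polynomial.eval_mul,
        Polynomial.eval_X, Polynomial.eval_ofNat]
      omega
    have hP2 : (size (code D.c0) + 10) * D.q0.eval (Z.length + D.S0.p.eval Z.length) + 10 ≤
        P0.eval Z.length := by
      rw [hP0]
      simp only [Polynomial.eval_add, Polynomial.eval_comp, Polynomial.eval_mul,
        Polynomial.eval_X, Polynomial.eval_ofNat, Polynomial.eval_C]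
      omega
    refine not_refT (S := D.S0) (qp_mono k0) (hred A Z) ?_ ?_ y
    · rw [← ha0]
      have h1 := Nat.mul_le_mul_left a0 (qp_mono k0 hP1)
      omega
    · intro u hu
      have hrel : D.Rel Z u := by
        have h1 := hu.2
        have e0 : fd 0 Z = D.s0 := by
          rw [hZ]; unfold zz; rw [fd_uns _ _ 0 (by simp)]; rfl
        simp only [Dat.S0, e0, if_true, decide_eq_true_eq] at h1
        exact h1
      refine D.acc_of_rel A hrel ?_
      have h1 : D.q0.eval (Z.length + u.length) ≤ D.q0.eval (Z.length + D.S0.p.eval Z.length) :=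
        poly_mono _ (by have := hu.1; omega)
      have h2 := Nat.mul_le_mul_left (size (code D.c0) + 10) h1
      omega
  -- so `S1` is total
  have htot : ∀ (A : Orc) (x : List Bool), ∃ u, D.RelS1 i d A x u = true := by
    intro A x
    by_cases hOk : D.Ok i ((fd 1 x + 2) ^ d) (fd 0 x) (fd 1 x)
    · obtain ⟨u, hu⟩ := D.exists_R1 hOk.2.2.2 (hno (fd 0 x) (fd 1 x) hOk) A
      exact ⟨u, by unfold Dat.RelS1; rw [if_pos hOk]; exact hu⟩
    · exact ⟨[], by unfold Dat.RelS1; rw [if_neg hOk]⟩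
  -- a reduction of `S1`
  obtain ⟨k1, cf1, cF1, hred1⟩ := hcon (D.S1 i d htot)
  set j := redNum cf1 cF1 with hj
  have hmj : mach j = node (code cf1) (code cF1) := mach_redNum cf1 cF1
  set a1 := size (code cf1) + size (code cF1) + 10 with ha1
  obtain ⟨m0, hm0⟩ := clock_two k1 a1 (j + 2) ((Polynomial.X + T.clk).comp (2 * Polynomial.X))
  set m := max m0 (max D.s0 (max i j)) with hm
  have hmd : m + 2 ≤ (m + 2) ^ d := Nat.le_self_pow (by omega) _
  have hOk : D.Ok i ((m + 2) ^ d) j m := ⟨by omega, by omega, by omega, by omega⟩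
  obtain ⟨w, hw⟩ := D.exists_rel i ((m + 2) ^ d) j m
    ⟨hOk.1, hOk.2.1, hOk.2.2.1, hOk.2.2.2, rfl⟩
  have href := hw.2 ⟨hOk.1, hOk.2.1, hOk.2.2.1, hOk.2.2.2, rfl⟩
  rw [hmj] at href
  have hx1 : (x1 j m).length = j + m + 2 := by
    unfold x1
    rw [uns_length]
    simp
  refine not_refT (S := D.S1 i d htot) (qp_mono k1) (hred1 _ (x1 j m)) ?_ ?_ _ href
  · have h1 := hm0 m (le_max_left _ _) (x1 j m).length (by rw [hx1]; omega)
    rw [Polynomial.eval_comp] at h1
    simp only [Polynomial.eval_mul, Polynomial.eval_X, Polynomial.eval_ofNat] at h1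
    rw [← ha1]
    omega
  · intro u hu
    have e0 : fd 0 (x1 j m) = j := by unfold x1; rw [fd_uns _ _ 0 (by simp)]; rfl
    have e1 : fd 1 (x1 j m) = m := by unfold x1; rw [fd_uns _ _ 1 (by simp)]; rfl
    have h1 : D.RelS1 i d (trie (fst (decode w))) (x1 j m) u = true := hu.2
    unfold Dat.RelS1 Dat.tz at h1
    rw [e0, e1, if_pos hOk] at h1
    refine D.acc_of_R1 h1 ?_
    unfold z1
    rw [uns_length]
    have hpos : 0 < 2 ^ m := by positivity
    simp only [List.sum_cons, List.sum_nil, List.length_cons, List.length_nil]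
    omega

/-- all the data exist, given the tableau problems -/
theorem exists_dat (T : TFNP2 zero) (htab : ∀ (cW : Prog) (C : ℕ), Nonempty (Tbl cW C)) :
    Nonempty (Dat T) := by
  obtain ⟨cW, C, hs⟩ := exists_search T
  obtain ⟨PB, hPB⟩ := exists_tableT T
  obtain ⟨tab⟩ := htab cW C
  exact ⟨⟨cW, C, hs, tab, PB, hPB⟩⟩

end Pool.Agent.H93.BB
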