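import Pool.Agent.H93.BT.Defs
import Pool.Agent.H93.BB.Ineq
import Pool.Agent.H88.RO.Strings

set_option autoImplicit false

/-!
# Many-one reductions are Turing reductions
-/

namespace Pool.Agent.H93.BB

open Pool.Agent.H88.RO Pool.Agent.H88.RO.Tr

/-- evaluation is deterministic -/
theorem eval_fun {O : Orc} {c : Prog} {v w w' : Tr} {t t' : ℕ} (h : Eval O c v w t)
    (h' : Eval O c v w' t') : w = w' := by
  have h1 := U_eq h (K := (size (code c) + 10) * (t + t') + 10)
    (Nat.add_le_add_right (Nat.mul_le_mul_left _ (by omega)) _)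
  have h2 := U_eq h' (K := (size (code c) + 10) * (t + t') + 10)
    (Nat.add_le_add_right (Nat.mul_le_mul_left _ (by omega)) _)
  rw [h1] at h2
  injection h2

/-- polynomials are bounded by `e ^ k + k` -/
theorem exists_pow_bound (G : Polynomial ℕ) : ∃ k : ℕ, ∀ e, G.eval e ≤ e ^ k + k := by
  induction G using Polynomial.induction_on' with
  | add p q hp hq =>
    obtain ⟨k1, h1⟩ := hp
    obtain ⟨k2, h2⟩ := hq
    refine ⟨k1 + k2 + 2, fun e => ?_⟩
    have e1 := h1 e
    have e2 := h2 e
    rw [Polynomial.eval_add]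
    rcases Nat.lt_or_ge e 2 with he | he
    · have a3 : ∀ k : ℕ, e ^ k ≤ 1 := by
        intro k
        interval_cases e
        · rcases k with _ | k <;> simp
        · simp
      have a1 := a3 k1
      have a2 := a3 k2
      omega
    · have a1 : e ^ k1 ≤ e ^ (k1 + k2) := Nat.pow_le_pow_right (by omega) (by omega)
      have a2 : e ^ k2 ≤ e ^ (k1 + k2) := Nat.pow_le_pow_right (by omega) (by omega)
      have a3 : e ^ (k1 + k2 + 2) = e ^ (k1 + k2) * (e * e) := by ring
      have a4 : e ^ (k1 + k2) * 2 ≤ e ^ (k1 + k2) * (e * e) :=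
        Nat.mul_le_mul_left _ (by nlinarith)
      omega
  | monomial k a =>
    refine ⟨k + a, fun e => ?_⟩
    rw [Polynomial.eval_monomial]
    rcases Nat.lt_or_ge e 2 with he | he
    · have a1 : e ^ k ≤ 1 := by
        interval_cases e
        · rcases k with _ | k <;> simp
        · simp
      have := Nat.mul_le_mul_left a a1
      omega
    · have a1 : a ≤ e ^ a := (Nat.lt_pow_self (by omega : 1 < e)).le
      have a2 := Nat.mul_le_mul_right (e ^ k) a1
      have a3 : e ^ (k + a) = e ^ a * e ^ k := by ring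
      omega

theorem qp_succ (k n : ℕ) : qp k n ≤ qp (k + 1) n := by
  unfold qp
  apply Nat.pow_le_pow_right (by norm_num)
  rcases Nat.eq_zero_or_pos (Nat.size n) with h | h
  · rw [h]
    rcases k with _ | k <;> simp
  · have := Nat.pow_le_pow_right h (show k ≤ k + 1 by omega)
    omega

theorem le_qp_succ (k n : ℕ) : n ≤ qp (k + 1) n := by
  unfold qp
  have h1 := Nat.lt_size_self n
  refine h1.le.trans (Nat.pow_le_pow_right (by norm_num) ?_)
  have := Nat.le_self_pow (show k + 1 ≠ 0 by omega) (Nat.size n)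
  omega

theorem qp_monotone (k : ℕ) : Monotone (qp k) := by
  intro a b h
  unfold qp
  exact Nat.pow_le_pow_right (by norm_num)
    (Nat.add_le_add_right (Nat.pow_le_pow_left (Nat.size_le_size h) _) _)

/-- closure of the quasi-polynomial bounds -/
theorem qp_closed (k : ℕ) (P : Polynomial ℕ) : ∃ k' : ℕ, ∀ n,
    100 * qp k (P.eval (n + qp k n)) ≤ qp k' n := by
  obtain ⟨G, hG⟩ := clock_poly k 100 P
  obtain ⟨k', hk'⟩ := exists_pow_bound G
  refine ⟨k', fun n => ?_⟩
  have h1 := hG (Nat.size n) n (Nat.lt_size_self n).le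
  have h2 := hk' (Nat.size n)
  have h3 : 2 ^ G.eval (Nat.size n) ≤ qp k' n := Nat.pow_le_pow_right (by norm_num) h2
  omega

variable {B : Orc}

/-- the first program of the Turing reduction -/
def mf (cf cg : Prog) : Prog :=
  Prog.comp (Prog.cond (Prog.pair Prog.nil (Prog.comp cf Prog.fst))
    (Prog.pair (Prog.pair Prog.nil Prog.nil) (Prog.comp cg (Prog.pair Prog.fst
      (Prog.comp Prog.fst Prog.snd))))) (Prog.pair Prog.snd Prog.id)

/-- the second program of the Turing reduction -/
def mF (cF : Prog) : Prog := Prog.comp cF (Prog.pair (Prog.comp Prog.fst Prog.fst) Prog.snd)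

theorem mf_nil {O : Orc} {cf : Prog} (cg : Prog) {x s : List Bool} {t : ℕ}
    (h : Eval O cf (enc x) (enc s) t) :
    ∃ t' ≤ t + 20 * size (enc x) + 60,
      Eval O (mf cf cg) (node (enc x) (encL [])) (node leaf (enc s)) t' := by
  have h1 : Eval O (Prog.pair Prog.nil (Prog.comp cf Prog.fst)) (node (enc x) (encL []))
      (node leaf (enc s)) _ := Eval.pair (Eval.nil _) (Eval.comp (Eval.fst _) h)
  have h2 := Eval.comp (O := O) (Eval.pair (Eval.snd (node (enc x) (encL [])))
    (Eval.id (node (enc x) (encL [])))) (Eval.condNil (f := Prog.pair Prog.nil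
      (Prog.comp cf Prog.fst)) (g := Prog.pair (Prog.pair Prog.nil Prog.nil) (Prog.comp cg
        (Prog.pair Prog.fst (Prog.comp Prog.fst Prog.snd)))) (by rfl) h1)
  refine ⟨_, ?_, h2⟩
  simp only [encL, size, snd_node]
  omega

theorem mf_one {O : Orc} (cf : Prog) {cg : Prog} {x y z : List Bool} {t : ℕ}
    (h : Eval O cg (node (enc x) (enc y)) (enc z) t) :
    ∃ t' ≤ t + 20 * (size (enc x) + size (enc y)) + 100,
      Eval O (mf cf cg) (node (enc x) (encL [y])) (node (bit true) (enc z)) t' := by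
  have h0 : Eval O (Prog.pair Prog.fst (Prog.comp Prog.fst Prog.snd)) (node (enc x) (encL [y]))
      (node (enc x) (enc y)) _ := Eval.pair (Eval.fst _) (Eval.comp (Eval.snd _) (Eval.fst _))
  have h1 : Eval O (Prog.pair (Prog.pair Prog.nil Prog.nil) (Prog.comp cg
        (Prog.pair Prog.fst (Prog.comp Prog.fst Prog.snd)))) (node (enc x) (encL [y]))
      (node (bit true) (enc z)) _ :=
    Eval.pair (Eval.pair (Eval.nil _) (Eval.nil _)) (Eval.comp h0 h)
  have h2 := Eval.comp (O := O) (Eval.pair (Eval.snd (node (enc x) (encL [y])))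
    (Eval.id (node (enc x) (encL [y])))) (Eval.condNode (f := Prog.pair Prog.nil
      (Prog.comp cf Prog.fst)) (g := Prog.pair (Prog.pair Prog.nil Prog.nil) (Prog.comp cg
        (Prog.pair Prog.fst (Prog.comp Prog.fst Prog.snd)))) (by simp [encL]) h1)
  refine ⟨_, ?_, h2⟩
  simp only [encL, size, snd_node]
  omega

theorem mF_eval {O : Orc} {cF : Prog} {x w : List Bool} {b : Tr} {t : ℕ}
    (h : Eval O cF (node (enc x) (enc w)) b t) :
    ∃ t' ≤ t + 20 * (size (enc x) + size (enc w)) + 60,
      Eval O (mF cF) (node (node (enc x) (encL [])) (enc w)) b t' := by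
  have h0 : Eval O (Prog.pair (Prog.comp Prog.fst Prog.fst) Prog.snd)
      (node (node (enc x) (encL [])) (enc w)) (node (enc x) (enc w)) _ :=
    Eval.pair (Eval.comp (Eval.fst _) (Eval.fst _)) (Eval.snd _)
  refine ⟨_, ?_, Eval.comp h0 h⟩
  simp only [encL, size, fst_node]
  omega

/-- A many-one reduction is a Turing reduction that asks one question. -/
theorem TFNP2.ReducesWithin.turing {S T : TFNP2 B} {k : ℕ} (h : S.ReducesWithin (qp k) T) :
    ∃ k', S.TuringWithin (qp k') T := by
  obtain ⟨cf, cF, cg, h⟩ := h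
  -- the bound
  obtain ⟨k', hk'⟩ := qp_closed (k + 1) (8 * Polynomial.X + 8 * T.p.comp (2 * Polynomial.X) + 8)
  refine ⟨k', mf cf cg, mF cF, fun A x => ?_⟩
  obtain ⟨A', s, ⟨t1, ht1, he1⟩, h2, h3⟩ := h A x
  obtain ⟨t1', ht1', he1'⟩ := mf_nil cg he1
  -- the possible histories
  have hH : ∀ g, Hist T (mf cf cg) (mF cF) A x g → g = [] ∨ ∃ y, T.IsSol A' s y ∧ g = [y] := by
    intro g hg
    induction hg with
    | nil => exact Or.inl rfl
    | @cons g s' y A'' hh hf hF hy ih =>
      right
      rcases ih with rfl | ⟨y0, hy0, rfl⟩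
      · obtain ⟨t, ht⟩ := hf
        have e1 := eval_fun ht he1'
        have e2 : s' = s := by
          have := congrArg (fun v => dec (snd v)) e1
          simpa using this
        have e3 : A'' = A' := by
          funext w
          obtain ⟨t, ht⟩ := hF w
          obtain ⟨t2, _, he2⟩ := h2 w
          obtain ⟨_, _, he2'⟩ := mF_eval he2
          have e4 := eval_fun ht he2'
          cases h5 : A'' w <;> cases h6 : A' w <;> simp [h5, h6, bit] at e4 ⊢
        rw [e2, e3] at hy
        exact ⟨y, hy, rfl⟩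
      · exfalso
        obtain ⟨z, ⟨t3, _, he3⟩, _⟩ := h3 y0 hy0
        obtain ⟨_, _, he3'⟩ := mf_one cf he3
        obtain ⟨t, ht⟩ := hf
        have e1 := eval_fun ht he3'
        simp [bit] at e1
  -- the costs
  have hP : ∀ n, (8 * Polynomial.X + 8 * T.p.comp (2 * Polynomial.X) + 8 : Polynomial ℕ).eval n =
      8 * n + 8 * T.p.eval (2 * n) + 8 := by
    intro n
    simp
  have hb := hk' x.length
  set n := x.length with hn
  set L := n + qp (k + 1) n with hL
  rw [hP] at hb
  set Q := 8 * L + 8 * T.p.eval (2 * L) + 8 with hQ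
  have a1 : qp k n ≤ qp (k + 1) n := qp_succ k n
  have a2 : qp (k + 1) n ≤ qp (k + 1) Q := qp_monotone _ (by omega)
  have a3 : Q ≤ qp (k + 1) Q := le_qp_succ _ _
  have a4 := size_enc_le x
  have hs : s.length ≤ 2 * L := by
    have h4 := he1.size_le
    have h5 := len_le_size (enc s)
    rw [len_enc] at h5
    omega
  intro g hg
  have e9 : qp k' x.length = qp k' n := rfl
  rcases hH g hg with rfl | ⟨y, hy, rfl⟩
  · refine ⟨by simp, Or.inl ⟨A', s, ⟨t1', by omega, he1'⟩, fun w => ?_⟩⟩
    obtain ⟨t2, ht2, he2⟩ := h2 w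
    obtain ⟨t2', ht2', he2'⟩ := mF_eval he2
    refine ⟨t2', ?_, he2'⟩
    have hb2 := hk' (n + w.length)
    rw [hP] at hb2
    set m := n + w.length with hm
    set Q2 := 8 * (m + qp (k + 1) m) + 8 * T.p.eval (2 * (m + qp (k + 1) m)) + 8 with hQ2
    have b1 : qp k m ≤ qp (k + 1) m := qp_succ k m
    have b2 : qp (k + 1) m ≤ qp (k + 1) Q2 := qp_monotone _ (by omega)
    have b3 : Q2 ≤ qp (k + 1) Q2 := le_qp_succ _ _
    have b4 := size_enc_le w
    omega
  · obtain ⟨z, ⟨t3, ht3, he3⟩, hz⟩ := h3 y hy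
    obtain ⟨t3', ht3', he3'⟩ := mf_one cf he3
    have c1 : y.length ≤ T.p.eval (2 * L) := hy.1.trans (poly_mono _ hs)
    have c2 : qp k (n + y.length) ≤ qp (k + 1) (n + y.length) := qp_succ k _
    have c3 : qp (k + 1) (n + y.length) ≤ qp (k + 1) Q := qp_monotone _ (by omega)
    have c4 := size_enc_le y
    refine ⟨?_, Or.inr ⟨z, ⟨t3', by omega, he3'⟩, hz⟩⟩
    simp only [List.length_singleton]
    omega

end Pool.Agent.H93.BB
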