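import Pool.Agent.H93.BT.Defs
import Pool.Agent.H93.BB.Refute

set_option autoImplicit false

/-!
# Refutations of Turing reductions
-/

namespace Pool.Agent.H93.BB

open Pool.Agent.H88.RO Pool.Agent.H88.RO.Tr Pool.Agent.H65.TS

/-- all elements of a list are related to the list of the following elements -/
def AllC (P : List (List Bool) → List Bool → Prop) : List (List Bool) → Prop
  | [] => True
  | y :: h => P h y ∧ AllC P h

/-- `y` is an answer to the question asked after the history `h`, with clock `K` -/
def Ans (T : TFNP2 zero) (A : Orc) (r x : Tr) (K : ℕ) (h : List (List Bool)) (y : List Bool) :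
    Prop :=
  fst (snd (U (join A zero) (fst r) (node x (encL h)) K)) = leaf ∧
    T.IsSol (inner A (snd r) (node x (encL h)) K)
      (dec (snd (snd (U (join A zero) (fst r) (node x (encL h)) K)))) y

/-- Relative to the oracle `A`, the history `h` shows that the Turing reduction to `T` with the
codes `r = (f, F)` is not correct at the instance `x`: with clock `K`, `h` is a possible history,
and either there are more than `K` questions, or `f` does not terminate, or the output
is not accepted by the test `e`, `xS`, `K2`. -/
def RefT (T : TFNP2 zero) (A : Orc) (r x : Tr) (K : ℕ) (e xS : Tr) (K2 : ℕ)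
    (h : List (List Bool)) : Prop :=
  AllC (Ans T A r x K) h ∧ h.length ≤ K + 1 ∧ (h.length = K + 1 ∨
    U (join A zero) (fst r) (node x (encL h)) K = leaf ∨
    (fst (snd (U (join A zero) (fst r) (node x (encL h)) K)) ≠ leaf ∧
      ¬ Acc A e xS K2 (dec (snd (snd (U (join A zero) (fst r) (node x (encL h)) K))))))

/-- If nothing refutes the reduction then it finds a string accepted by the test. -/
theorem exists_accT {T : TFNP2 zero} {A : Orc} {r x : Tr} {K : ℕ} {e xS : Tr} {K2 : ℕ}
    (h : ∀ h, ¬ RefT T A r x K e xS K2 h) : ∃ u, Acc A e xS K2 u := by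
  by_contra hcon
  push Not at hcon
  have key : ∀ n ≤ K + 1, ∃ g : List (List Bool), g.length = n ∧ AllC (Ans T A r x K) g := by
    intro n
    induction n with
    | zero => exact fun _ => ⟨[], rfl, trivial⟩
    | succ n ih =>
      intro hn
      obtain ⟨g, hg, hg'⟩ := ih (by omega)
      have h1 := h g
      unfold RefT at h1
      push Not at h1
      obtain ⟨_, _, h2⟩ := h1 hg' (by omega)
      have h3 : fst (snd (U (join A zero) (fst r) (node x (encL g)) K)) = leaf := by
        by_contra h4
        exact hcon _ (h2 h4)
      obtain ⟨y, hy⟩ := T.total (inner A (snd r) (node x (encL g)) K)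
        (dec (snd (snd (U (join A zero) (fst r) (node x (encL g)) K))))
      exact ⟨y :: g, by simp [hg], ⟨h3, hy⟩, hg'⟩
  obtain ⟨g, hg, hg'⟩ := key (K + 1) le_rfl
  exact h g ⟨hg', by omega, Or.inl hg⟩

/-- A correct reduction is not refuted, if the clocks are sufficient. -/
theorem not_refT {S T : TFNP2 zero} {τ : ℕ → ℕ} (hτ : Monotone τ) {cf cF : Prog} {A : Orc}
    {x : List Bool} (hred : TurAt τ S T cf cF A x)
    {K : ℕ} {e xS : Tr} {K2 : ℕ}
    (hK : (size (code cf) + size (code cF) + 10) *
      τ ((Polynomial.X + T.clk).eval (2 * (x.length + τ x.length))) + 10 ≤ K)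
    (hacc : ∀ u, S.IsSol A x u → Acc A e xS K2 u) (h : List (List Bool)) :
    ¬ RefT T A (node (code cf) (code cF)) (enc x) K e xS K2 h := by
  set M := 2 * (x.length + τ x.length) with hM
  have hev : (Polynomial.X + T.clk).eval M = M + T.clk.eval M := by
    simp
  rw [hev] at hK
  have hmul : ∀ (c : Prog) (n : ℕ), size (code c) ≤ size (code cf) + size (code cF) →
      n ≤ M + T.clk.eval M → (size (code c) + 10) * τ n + 10 ≤ K := by
    intro c n hc hn
    refine le_trans (Nat.add_le_add_right (Nat.mul_le_mul (by omega) (hτ hn)) _) hK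
  have hτK : τ x.length ≤ K := by
    have h1 := hmul cf x.length (by omega) (by omega)
    have h2 := Nat.le_mul_of_pos_left (τ x.length) (show 0 < size (code cf) + 10 by omega)
    omega
  -- one step
  have hstep : ∀ g, Hist T cf cF A x g →
      (∃ (A' : Orc) (s : List Bool),
        U (join A zero) (code cf) (node (enc x) (encL g)) K = node leaf (node leaf (enc s)) ∧
        (∃ t, Eval (join A zero) cf (node (enc x) (encL g)) (node leaf (enc s)) t) ∧
        (∀ w : List Bool, ∃ t,
          Eval (join A zero) cF (node (node (enc x) (encL g)) (enc w)) (bit (A' w)) t) ∧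
        ∀ w : List Bool, w.length ≤ T.clk.eval s.length →
          inner A (code cF) (node (enc x) (encL g)) K w = A' w) ∨
      (∃ z, U (join A zero) (code cf) (node (enc x) (encL g)) K =
          node leaf (node (bit true) (enc z)) ∧ S.IsSol A x z) := by
    intro g hg
    obtain ⟨_, h2 | h2⟩ := hred g hg
    · obtain ⟨A', s, ⟨t1, ht1, he1⟩, h2⟩ := h2
      left
      refine ⟨A', s, ?_, ⟨t1, he1⟩, fun w => ?_, fun w hw => ?_⟩
      · exact U_eq he1 (le_trans (Nat.add_le_add_right (Nat.mul_le_mul_left _ ht1) _)
          (hmul cf x.length (by omega) (by omega)))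
      · obtain ⟨t, _, he⟩ := h2 w
        exact ⟨t, he⟩
      · have hs : s.length ≤ M := by
          have h4 := he1.size_le
          have h5 := len_le_size (enc s)
          rw [len_enc] at h5
          simp only [size] at h4
          omega
        obtain ⟨t, ht, he⟩ := h2 w
        have h4 : T.clk.eval s.length ≤ T.clk.eval M := poly_mono _ hs
        unfold inner
        rw [U_eq he (le_trans (Nat.add_le_add_right (Nat.mul_le_mul_left _ ht) _)
          (hmul cF _ (by omega) (by omega)))]
        cases h : A' w <;> simp [bit]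
    · obtain ⟨z, ⟨t1, ht1, he1⟩, hz⟩ := h2
      right
      exact ⟨z, U_eq he1 (le_trans (Nat.add_le_add_right (Nat.mul_le_mul_left _ ht1) _)
        (hmul cf x.length (by omega) (by omega))), hz⟩
  -- the clocked histories are histories
  have hhist : ∀ g, AllC (Ans T A (node (code cf) (code cF)) (enc x) K) g →
      Hist T cf cF A x g := by
    intro g
    induction g with
    | nil => exact fun _ => Hist.nil
    | cons y g ih =>
      rintro ⟨⟨h1, h2⟩, h3⟩
      have hg := ih h3
      rw [fst_node] at h1 h2
      rcases hstep g hg with ⟨A', s, hU, he, hF, hin⟩ | ⟨z, hU, _⟩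
      · rw [hU, snd_node, snd_node, snd_node, dec_enc, T.isSol_congr (A := A') s y hin] at h2
        exact Hist.cons hg he hF h2
      · rw [hU] at h1
        exact absurd h1 (by simp [bit])
  rintro ⟨h1, h2, h3⟩
  have hh := hhist h h1
  have hlen := (hred h hh).1
  rcases h3 with h3 | h3 | ⟨h3, h4⟩
  · omega
  · rw [fst_node] at h3
    rcases hstep h hh with ⟨A', s, hU, _⟩ | ⟨z, hU, _⟩
    · rw [hU] at h3; exact absurd h3 (by simp)
    · rw [hU] at h3; exact absurd h3 (by simp)
  · rw [fst_node] at h3 h4
    rcases hstep h hh with ⟨A', s, hU, _⟩ | ⟨z, hU, hz⟩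
    · rw [hU] at h3; exact h3 (by simp)
    · rw [hU, snd_node, snd_node, dec_enc] at h4
      exact h4 (hacc z hz)

end Pool.Agent.H93.BB
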