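import Pool.Agent.H93.BT.W

set_option autoImplicit false

/-!
# The problem `S0`: find a refutation of reduction number `j` at the instance `(j, m)`
-/

namespace Pool.Agent.H93.BB

open Pool.Agent.H88.RO Pool.Agent.H88.RO.Tr Pool.Agent.H65.TS

/-- the data of the tableau problem for the program `cW` -/
structure Tbl (cW : Prog) (C : ℕ) where
  R1 : Orc → List Bool → List Bool → Bool
  c1 : Prog
  q1 : Polynomial ℕ
  run : ∀ A z u, ∃ t ≤ q1.eval (z.length + u.length),
    Eval (join A zero) c1 (node (enc z) (enc u)) (bit (R1 A z u)) t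
  short : ∀ A z u, R1 A z u = true → u.length ≤ q1.eval z.length
  sound : ∀ z, (∃ A, ∀ u, R1 A z u = false) → ∃ Y v t, v ≠ leaf ∧
    Eval zero cW (node (enc z) Y) v t
  complete : ∀ z Y v t, v ≠ leaf → Eval zero cW (node (enc z) Y) v t →
    t ≤ 2 ^ (C * z.length + C) → ∃ A, ∀ u, R1 A z u = false

/-- the instance `(j, m)` -/
def x1 (j m : ℕ) : List Bool := uns [j, m] []

/-- the instances with an actual requirement -/
def Valid (s i κ j m n : ℕ) : Prop := s ≤ κ ∧ i ≤ κ ∧ j ≤ κ ∧ m ≤ κ ∧ n = 2 ^ m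

section

variable (T : TFNP2 zero) (c1 : Prog) (p2 p0 : Polynomial ℕ)

/-- the relation, in terms of the numbers -/
def R0Q (s i κ j m n : ℕ) (w : List Bool) : Prop :=
  w.length ≤ p0.eval (s + i + κ + j + m + 5 + n) ∧
  (Valid s i κ j m n → RefT T (trie (fst (decode w))) (mach j) (enc (x1 j m)) n (code c1)
    (enc (z1 s i κ j m)) (p2.eval (s + i + κ + j + m + 5 + n)) (decL (snd (decode w))).reverse)

/-- the relation -/
def R0P (Z w : List Bool) : Prop :=
  R0Q T c1 p2 p0 (fd 0 Z) (fd 1 Z) (fd 2 Z) (fd 3 Z) (fd 4 Z) (rs 5 Z).length w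

/-- test for `Valid` -/
def validT (s i κ j m n : Tr) : Tr :=
  cs (dropU κ s) (cs (dropU κ i) (cs (dropU κ j) (cs (dropU κ m)
    (cs (dropU (pow2cap m n) n) (cs (dropU n (pow2cap m n)) tt leaf) leaf) leaf) leaf) leaf) leaf

theorem cs_ne_leaf_iff {p a : Tr} : cs p a leaf ≠ leaf ↔ p = leaf ∧ a ≠ leaf := by
  unfold cs
  split_ifs with h <;> simp [h]

theorem validT_spec (s i κ j m n : Tr) :
    validT s i κ j m n ≠ leaf ↔ Valid (len s) (len i) (len κ) (len j) (len m) (len n) := by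
  unfold validT Valid
  simp only [cs_ne_leaf_iff, dropU_eq_leaf, pow2cap_eq, len_num, tt_ne, ne_eq, not_false_eq_true,
    and_true]
  constructor
  · rintro ⟨h1, h2, h3, h4, h5, h6⟩
    exact ⟨h1, h2, h3, h4, by omega⟩
  · rintro ⟨h1, h2, h3, h4, h5⟩
    exact ⟨h1, h2, h3, h4, by omega, by omega⟩

/-- the string of the five numbers followed by `w` -/
def unsZ (Z w : Tr) : Tr := unsT [fdT 0 Z, fdT 1 Z, fdT 2 Z, fdT 3 Z, fdT 4 Z] w

theorem FP.unsZ' {F G : Tr → Tr} (hF : FP zero F) (hG : FP zero G) :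
    FP zero (fun v => unsZ (F v) (G v)) :=
  FP.uns5' (FP.fdT' 0 hF) (FP.fdT' 1 hF) (FP.fdT' 2 hF) (FP.fdT' 3 hF) (FP.fdT' 4 hF) hG

/-- program for `R0P`; inputs `node Z w` -/
noncomputable def r0T (v : Tr) : Tr :=
  cs (dropU (pT p0 (unsZ (fst v) (onesPre (rsT 5 (fst v)) leaf))) (snd v))
    (cs (validT (fdT 0 (fst v)) (fdT 1 (fst v)) (fdT 2 (fst v)) (fdT 3 (fst v)) (fdT 4 (fst v))
        (rsT 5 (fst v))) tt
      (refTT T (fst (decodeT (snd v))) (machT (fdT 3 (fst v)))
        (unsT [fdT 3 (fst v), fdT 4 (fst v)] leaf) (rsT 5 (fst v)) (code c1)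
        (unsZ (fst v) leaf) (pT p2 (unsZ (fst v) (onesPre (rsT 5 (fst v)) leaf)))
        (snd (decodeT (snd v))))) leaf

theorem FP_r0T : FP zero (r0T T c1 p2 p0) := by
  have hZ : FP zero (fun v => fst v) := FP.fst' FP.id'
  have hw : FP zero (fun v => snd v) := FP.snd' FP.id'
  have hn := FP.rsT' 5 hZ
  have hc := FP.unsZ' hZ (FP.onesPre' hn FP.leaf')
  have hd := FP.decodeT' hw
  have hV : FP zero (fun v => validT (fdT 0 (fst v)) (fdT 1 (fst v)) (fdT 2 (fst v))
      (fdT 3 (fst v)) (fdT 4 (fst v)) (rsT 5 (fst v))) := by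
    have hp := FP.pow2cap' (FP.fdT' 4 hZ) hn
    exact FP.cs' (FP.dropU' (FP.fdT' 2 hZ) (FP.fdT' 0 hZ)) (FP.cs' (FP.dropU' (FP.fdT' 2 hZ)
      (FP.fdT' 1 hZ)) (FP.cs' (FP.dropU' (FP.fdT' 2 hZ) (FP.fdT' 3 hZ)) (FP.cs'
      (FP.dropU' (FP.fdT' 2 hZ) (FP.fdT' 4 hZ)) (FP.cs' (FP.dropU' hp hn)
      (FP.cs' (FP.dropU' hn hp) (FP.const' _) FP.leaf') FP.leaf') FP.leaf') FP.leaf') FP.leaf')
      FP.leaf'
  exact FP.cs' (FP.dropU' (FP.pT' p0 hc) hw) (FP.cs' hV (FP.const' _)
    (FP.refTT' T (FP.fst' hd) (FP.machT' (FP.fdT' 3 hZ)) (FP.uns2' (FP.fdT' 3 hZ) (FP.fdT' 4 hZ)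
      FP.leaf') hn (FP.const' _) (FP.unsZ' hZ FP.leaf') (FP.pT' p2 hc) (FP.snd' hd))) FP.leaf'

theorem r0T_spec (Z w : List Bool) :
    r0T T c1 p2 p0 (node (enc Z) (enc w)) ≠ leaf ↔ R0P T c1 p2 p0 Z w := by
  have e0 : unsZ (enc Z) (onesPre (rsT 5 (enc Z)) leaf) =
      enc (uns [fd 0 Z, fd 1 Z, fd 2 Z, fd 3 Z, fd 4 Z] (List.replicate (rs 5 Z).length true)) := by
    unfold unsZ
    rw [rsT_enc, onesPre_leaf, unsT_eq]
    simp [len_num]
  have e1 : unsZ (enc Z) leaf = enc (z1 (fd 0 Z) (fd 1 Z) (fd 2 Z) (fd 3 Z) (fd 4 Z)) := by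
    have : (leaf : Tr) = enc [] := rfl
    unfold unsZ z1
    rw [this, unsT_eq]
    simp [len_num]
  have e2 : unsT [fdT 3 (enc Z), fdT 4 (enc Z)] leaf = enc (x1 (fd 3 Z) (fd 4 Z)) := by
    have : (leaf : Tr) = enc [] := rfl
    unfold x1
    rw [this, unsT_eq]
    simp [len_num]
  have e3 : (uns [fd 0 Z, fd 1 Z, fd 2 Z, fd 3 Z, fd 4 Z]
      (List.replicate (rs 5 Z).length true)).length =
      fd 0 Z + fd 1 Z + fd 2 Z + fd 3 Z + fd 4 Z + 5 + (rs 5 Z).length := by
    rw [uns_length]; simp; ring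
  unfold r0T R0P R0Q
  rw [fst_node, snd_node, e0, e1, e2, cs_ne_leaf_iff, dropU_eq_leaf, pT_eq, pT_eq, len_num,
    len_enc, len_enc, e3, decodeT_enc]
  refine and_congr_right fun _ => ?_
  by_cases hV : Valid (fd 0 Z) (fd 1 Z) (fd 2 Z) (fd 3 Z) (fd 4 Z) (rs 5 Z).length
  · rw [cs_neg _ _ (by
      rw [ne_eq, ← ne_eq, validT_spec]; simpa [len_num] using hV), refTT_spec]
    simp only [hV, true_implies, machT_eq, fdT_enc, len_num, rsT_enc, len_enc]
  · rw [cs_pos _ _ (by
      by_contra hcon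
      rw [← ne_eq, validT_spec] at hcon
      exact hV (by simpa [len_num] using hcon))]
    simp [hV]


theorem rpn_length (t : Tr) : (rpn t).length = size t := by
  induction t with
  | leaf => rfl
  | node a b iha ihb => simp only [rpn, size, List.length_append, iha, ihb, List.length_singleton]; ring

theorem fields_le (Z : List Bool) :
    fd 0 Z + fd 1 Z + fd 2 Z + fd 3 Z + fd 4 Z + (rs 5 Z).length ≤ Z.length := by
  have h0 := fd_rs_le Z 0
  have h1 := fd_rs_le Z 1
  have h2 := fd_rs_le Z 2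
  have h3 := fd_rs_le Z 3
  have h4 := fd_rs_le Z 4
  simp only [rs] at *
  omega

open Classical in
/-- a program for `R0P`, the same for all oracles -/
theorem exists_c0 : ∃ (c0 : Prog) (q0 : Polynomial ℕ),
    URel zero (fun _ Z w => decide (R0P T c1 p2 p0 Z w)) c0 q0 := by
  refine exists_URel (F := fun _ v => r0T T c1 p2 p0 v) (UFP.pure (FP_r0T T c1 p2 p0)) ?_
  intro A x y
  rw [r0T_spec, decide_eq_true_eq]

end

/-- all the data -/
structure Dat (T : TFNP2 zero) where
  cW : Prog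
  C : ℕ
  search : ∀ s i κ j m : ℕ, m ≤ κ →
    (∀ Y v t, v ≠ leaf → Eval zero cW (node (enc (z1 s i κ j m)) Y) v t → ∃ A y,
      RefT T A (mach i) (enc (zz s i κ j m)) (2 ^ κ) (mach s) (enc (zz s i κ j m)) (2 ^ κ) y) ∧
    (∀ A y, RefT T A (mach i) (enc (zz s i κ j m)) (2 ^ κ) (mach s) (enc (zz s i κ j m))
      (2 ^ κ) y → ∃ Y v t, v ≠ leaf ∧ Eval zero cW (node (enc (z1 s i κ j m)) Y) v t ∧
        t ≤ 2 ^ (C * (z1 s i κ j m).length + C))
  tab : Tbl cW C
  PB : Polynomial ℕ
  table : ∀ (A : Orc) (r x : Tr) (K : ℕ) (e xS : Tr) (K2 : ℕ) (h : List (List Bool)),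
    RefT T A r x K e xS K2 h → ∃ t : Tr, size t ≤ PB.eval (K + K2) ∧
      size (encL h.reverse) ≤ PB.eval (K + K2) ∧ RefT T (trie t) r x K e xS K2 h

namespace Dat

variable {T : TFNP2 zero} (D : Dat T)

/-- the clock for the relation of the tableau problem -/
noncomputable def p2 : Polynomial ℕ :=
  Polynomial.C (size (code D.tab.c1) + 10) * D.tab.q1.comp (Polynomial.X + D.tab.q1) + 10

/-- the bound for the solutions -/
noncomputable def p0 : Polynomial ℕ := 5 * D.PB.comp (Polynomial.X + D.p2) + 5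

/-- the relation of the problem `S0` -/
def Rel (Z w : List Bool) : Prop := R0P T D.tab.c1 D.p2 D.p0 Z w

open Classical in
/-- its program -/
noncomputable def c0 : Prog := (exists_c0 T D.tab.c1 D.p2 D.p0).choose
/-- its time bound -/
noncomputable def q0 : Polynomial ℕ := (exists_c0 T D.tab.c1 D.p2 D.p0).choose_spec.choose

open Classical in
theorem c0_spec (A : Orc) (Z w : List Bool) : ∃ t ≤ D.q0.eval (Z.length + w.length),
    Eval (join A zero) D.c0 (node (enc Z) (enc w)) (bit (decide (D.Rel Z w))) t :=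
  (exists_c0 T D.tab.c1 D.p2 D.p0).choose_spec.choose_spec A Z w

/-- the number of the program `c0` -/
noncomputable def s0 : ℕ := sval (rpn (code D.c0))

theorem mach_s0 : mach D.s0 = code D.c0 := mach_sval _

open Classical in
/-- what is accepted by the program is a solution -/
theorem rel_of_acc {A : Orc} {Z u : List Bool} {K : ℕ} (h : Acc A (mach D.s0) (enc Z) K u) :
    D.Rel Z u := by
  unfold Acc at h
  rw [mach_s0] at h
  obtain ⟨t, _, he⟩ := D.c0_spec A Z u
  have h1 : U (join A zero) (code D.c0) (node (enc Z) (enc u)) K ≠ leaf := by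
    intro h2
    rw [h2] at h
    exact h rfl
  rw [U_of_eval he h1, snd_node, bit_ne_leaf, decide_eq_true_eq] at h
  exact h

open Classical in
/-- solutions are accepted by the program if the clock is sufficient -/
theorem acc_of_rel (A : Orc) {Z u : List Bool} {K : ℕ} (h : D.Rel Z u)
    (hK : (size (code D.c0) + 10) * D.q0.eval (Z.length + u.length) + 10 ≤ K) :
    Acc A (mach D.s0) (enc Z) K u := by
  unfold Acc
  rw [mach_s0]
  obtain ⟨t, ht, he⟩ := D.c0_spec A Z u
  rw [U_eq he (le_trans (Nat.add_le_add_right (Nat.mul_le_mul_left _ ht) _) hK), snd_node,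
    bit_ne_leaf, decide_eq_true_eq]
  exact h

theorem R1_of_acc {A : Orc} {z u : List Bool} {K : ℕ} (h : Acc A (code D.tab.c1) (enc z) K u) :
    D.tab.R1 A z u = true := by
  unfold Acc at h
  obtain ⟨t, _, he⟩ := D.tab.run A z u
  have h1 : U (join A zero) (code D.tab.c1) (node (enc z) (enc u)) K ≠ leaf := by
    intro h2
    rw [h2] at h
    exact h rfl
  rw [U_of_eval he h1, snd_node, bit_ne_leaf] at h
  exact h

theorem acc_of_R1 {A : Orc} {z u : List Bool} (h : D.tab.R1 A z u = true) {L : ℕ}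
    (hL : z.length ≤ L) : Acc A (code D.tab.c1) (enc z) (D.p2.eval L) u := by
  unfold Acc
  obtain ⟨t, ht, he⟩ := D.tab.run A z u
  have h1 := D.tab.short A z u h
  rw [U_eq he, snd_node, bit_ne_leaf]
  · exact h
  · have h2 : D.tab.q1.eval z.length ≤ D.tab.q1.eval L := poly_mono _ hL
    have h3 : D.tab.q1.eval (z.length + u.length) ≤ D.tab.q1.eval (L + D.tab.q1.eval L) :=
      poly_mono _ (by omega)
    simp only [p2, Polynomial.eval_add, Polynomial.eval_mul, Polynomial.eval_C,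
      Polynomial.eval_comp, Polynomial.eval_X, Polynomial.eval_ofNat]
    exact Nat.add_le_add_right (Nat.mul_le_mul_left _ (ht.trans h3)) _

/-- **The problem `S0` is total**, first form. -/
theorem exists_rel (i κ j m : ℕ) (hV : Valid D.s0 i κ j m (2 ^ m)) :
    ∃ w, R0Q T D.tab.c1 D.p2 D.p0 D.s0 i κ j m (2 ^ m) w := by
  by_contra hcon
  push Not at hcon
  set L := D.s0 + i + κ + j + m + 5 + 2 ^ m with hL
  -- there is no refutation of reduction `j`
  have h1 : ∀ (A : Orc) (y : List (List Bool)), ¬ RefT T A (mach j) (enc (x1 j m)) (2 ^ m)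
      (code D.tab.c1) (enc (z1 D.s0 i κ j m)) (D.p2.eval L) y := by
    intro A y hy
    obtain ⟨t, ht, hy', href⟩ := D.table A _ _ _ _ _ _ y hy
    apply hcon (rpn (node t (encL y.reverse)))
    have hdec : decode (rpn (node t (encL y.reverse))) = node t (encL y.reverse) := by
      simpa using decode_pad 0 (node t (encL y.reverse))
    refine ⟨?_, fun _ => ?_⟩
    · rw [rpn_length, size, ← hL]
      have h3 : D.PB.eval (2 ^ m + D.p2.eval L) ≤ D.PB.eval (L + D.p2.eval L) :=
        poly_mono _ (by omega)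
      simp only [p0, Polynomial.eval_add, Polynomial.eval_mul,
        Polynomial.eval_comp, Polynomial.eval_X, Polynomial.eval_ofNat]
      omega
    · rw [hdec, fst_node, snd_node, decL_encL, List.reverse_reverse]
      exact href
  -- so the tableau problem is total at `z1`
  have h2 : ¬ ∃ A, ∀ u, D.tab.R1 A (z1 D.s0 i κ j m) u = false := by
    rintro ⟨A, hA⟩
    obtain ⟨u, hu⟩ := exists_accT (h1 A)
    have := D.R1_of_acc hu
    rw [hA u] at this
    exact absurd this (by simp)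
  -- so there is no refutation of reduction `i`
  have h3 : ∀ (A : Orc) (y : List (List Bool)), ¬ RefT T A (mach i) (enc (zz D.s0 i κ j m)) (2 ^ κ)
      (mach D.s0) (enc (zz D.s0 i κ j m)) (2 ^ κ) y := by
    intro A y hy
    obtain ⟨Y, v, t, hv, he, ht⟩ := (D.search D.s0 i κ j m hV.2.2.2.1).2 A y hy
    exact h2 (D.tab.complete _ Y v t hv he ht)
  -- so it finds a solution
  obtain ⟨u, hu⟩ := exists_accT (h3 zero)
  have h4 := D.rel_of_acc hu
  unfold Rel R0P at h4
  have e0 : fd 0 (zz D.s0 i κ j m) = D.s0 := by unfold zz; rw [fd_uns _ _ 0 (by simp)]; rfl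
  have e1 : fd 1 (zz D.s0 i κ j m) = i := by unfold zz; rw [fd_uns _ _ 1 (by simp)]; rfl
  have e2 : fd 2 (zz D.s0 i κ j m) = κ := by unfold zz; rw [fd_uns _ _ 2 (by simp)]; rfl
  have e3 : fd 3 (zz D.s0 i κ j m) = j := by unfold zz; rw [fd_uns _ _ 3 (by simp)]; rfl
  have e4 : fd 4 (zz D.s0 i κ j m) = m := by unfold zz; rw [fd_uns _ _ 4 (by simp)]; rfl
  have e5 : (rs 5 (zz D.s0 i κ j m)).length = 2 ^ m := by
    unfold zz
    rw [rs_uns _ _ 5 (by simp)]
    simp [uns]
  rw [e0, e1, e2, e3, e4, e5] at h4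
  exact hcon u h4

open Classical in
/-- the problem `S0` -/
noncomputable def S0 : TFNP2 zero where
  R := fun _ Z w => if fd 0 Z = D.s0 then decide (D.Rel Z w) else true
  p := D.p0.comp (Polynomial.X + 5)
  polyTime := by
    have hZ : FP zero (fun v => fst v) := FP.fst' FP.id'
    have h1 : FP zero (fun v => cs (cs (dropU (num D.s0) (fdT 0 (fst v)))
        (dropU (fdT 0 (fst v)) (num D.s0)) tt) (r0T T D.tab.c1 D.p2 D.p0 v) tt) :=
      FP.cs' (FP.cs' (FP.dropU' (FP.const' _) (FP.fdT' 0 hZ)) (FP.dropU' (FP.fdT' 0 hZ)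
        (FP.const' _)) (FP.const' _)) (FP_r0T T D.tab.c1 D.p2 D.p0) (FP.const' _)
    refine exists_URel (B := zero) (R := fun _ Z w => if fd 0 Z = D.s0 then decide (D.Rel Z w)
      else true) (UFP.pure h1) ?_
    intro A Z w
    rw [fst_node, fdT_enc]
    by_cases h : fd 0 Z = D.s0
    · rw [if_pos h, decide_eq_true_eq]
      have : cs (dropU (num D.s0) (num (fd 0 Z))) (dropU (num (fd 0 Z)) (num D.s0)) tt = leaf := by
        rw [cs_pos _ _ (dropU_eq_leaf.mpr (by rw [h]))]
        exact dropU_eq_leaf.mpr (by rw [h])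
      rw [cs_pos _ _ this]
      exact r0T_spec T D.tab.c1 D.p2 D.p0 Z w
    · rw [if_neg h]
      have : cs (dropU (num D.s0) (num (fd 0 Z))) (dropU (num (fd 0 Z)) (num D.s0)) tt ≠ leaf := by
        intro h'
        unfold cs at h'
        split_ifs at h' with h2
        · rw [dropU_eq_leaf, len_num, len_num] at h' h2
          exact h (by omega)
        · exact absurd h' (by simp)
      rw [cs_neg _ _ this]
      simp
  total := by
    intro A Z
    by_cases h : fd 0 Z = D.s0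
    · simp only [h, if_true, decide_eq_true_eq]
      have hL : (D.p0.comp (Polynomial.X + 5)).eval Z.length = D.p0.eval (Z.length + 5) := by
        simp
      rw [hL]
      by_cases hV : Valid (fd 0 Z) (fd 1 Z) (fd 2 Z) (fd 3 Z) (fd 4 Z) (rs 5 Z).length
      · have hn := hV.2.2.2.2
        rw [hn, h] at hV
        obtain ⟨w, hw⟩ := D.exists_rel _ _ _ _ hV
        refine ⟨w, ?_, ?_⟩
        · refine hw.1.trans (poly_mono _ ?_)
          have := fields_le Z
          omega
        · unfold Rel R0P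
          rw [hn, h]
          exact hw
      · exact ⟨[], by simp, by simp, fun hV' => absurd hV' hV⟩
    · exact ⟨[], by simp, by simp [h]⟩

end Dat

end Pool.Agent.H93.BB
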